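import Mathlib

/-!
Definitions for the local-global map of norm one groups.

`k` is a field and `Φ j : MvPolynomial (ι j) k`, `j : J`, is a family of forms. In the
application `ι j` is the index set of a basis `e j` of a `k`-algebra `D j` and `Φ j` is a norm
form of `D j`, written in the coordinates. For a field `F` over `k` the algebra `D j ⊗ F` is the
space `ι j → F` of coordinate vectors, and `MvPolynomial.aeval u (Φ j) : F` is the value of `Φ j`
at the vector `u`.
-/

namespace Pool.H24.NT

open Polynomial IsDedekindDomain

universe u v w x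

/-- `Φ` is a norm form of degree `n` on `D`: a homogeneous polynomial of degree `n > 0` in the
coordinates with respect to the basis `e`, with `Φ(1) = 1` and `Φ(x y) = Φ(x) Φ(y)`. Example: `D`
central simple of dimension `n ^ 2` over `k` and `Φ` the reduced norm. -/
structure IsNormForm {k : Type u} [Field k] {D : Type v} [Ring D] [Algebra k D] {ι : Type w}
    (e : Module.Basis ι k D) (n : ℕ) (Φ : MvPolynomial ι k) : Prop where
  pos : 0 < n
  hom : Φ.IsHomogeneous n
  mul : ∀ x y : D, MvPolynomial.eval (fun i => e.repr (x * y) i) Φ =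
    MvPolynomial.eval (fun i => e.repr x i) Φ * MvPolynomial.eval (fun i => e.repr y i) Φ
  one : MvPolynomial.eval (fun i => e.repr 1 i) Φ = 1

/-- The subgroup of `Fˣ` generated by the nonzero values of the forms `Φ j` over `F`. (If `Φ j`
is a norm form and `k` is infinite, its nonzero values form a subgroup.) -/
def normGroup {k : Type u} [Field k] {J : Type x} {ι : J → Type w}
    (Φ : ∀ j, MvPolynomial (ι j) k) (F : Type u) [Field F] [Algebra k F] : Subgroup Fˣ :=
  Subgroup.closure {f | ∃ (j : J) (u : ι j → F), MvPolynomial.aeval u (Φ j) = (f : F)}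

/-- `F^× / ∏ N(D_j ⊗ F)^×`. For one central division algebra `D` over `k` and its reduced norm
this is the Galois cohomology set `H^1(F, SL_1(D))`. -/
abbrev H1 {k : Type u} [Field k] {J : Type x} {ι : J → Type w}
    (Φ : ∀ j, MvPolynomial (ι j) k) (F : Type u) [Field F] [Algebra k F] : Type u :=
  Fˣ ⧸ normGroup Φ F

/-- The group generated by the orders at `v` of the nonzero values of the forms `Φ j` over the
completion of `k(X)` at the closed point `v`. For one central division algebra `D` and its
reduced norm, this is the group `m ℤ`, where `m` is the index of `D ⊗ k(v)`, `k(v)` the residue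
field. -/
def ordGroup {k : Type u} [Field k] {J : Type x} {ι : J → Type w}
    (Φ : ∀ j, MvPolynomial (ι j) k) (v : HeightOneSpectrum k[X]) : AddSubgroup ℤ :=
  AddSubgroup.closure {m | ∃ (j : J) (u : ι j → v.adicCompletion (RatFunc k)),
    MvPolynomial.aeval u (Φ j) ≠ 0 ∧
      m = WithZero.log (Valued.v (MvPolynomial.aeval u (Φ j)))}

/-- Restriction maps. -/
theorem normGroup_le_comap {k : Type u} [Field k] {J : Type x} {ι : J → Type w}
    (Φ : ∀ j, MvPolynomial (ι j) k) (F E : Type u) [Field F] [Algebra k F] [Field E]
    [Algebra k E] [Algebra F E] [IsScalarTower k F E] :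
    normGroup Φ F ≤ (normGroup Φ E).comap (Units.map (algebraMap F E : F →* E)) := by
  rw [normGroup, Subgroup.closure_le]
  rintro f ⟨j, u, hu⟩
  apply Subgroup.subset_closure
  refine ⟨j, fun i => algebraMap F E (u i), ?_⟩
  have h1 := MvPolynomial.comp_aeval_apply (f := u) (IsScalarTower.toAlgHom k F E) (Φ j)
  have h2 : (Units.map (algebraMap F E : F →* E) f : E) = algebraMap F E (f : F) := rfl
  rw [h2, ← hu]
  exact h1.symm

/-- The restriction map `H^1(F) → H^1(E)` for a field extension `E / F`. -/
def res {k : Type u} [Field k] {J : Type x} {ι : J → Type w}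
    (Φ : ∀ j, MvPolynomial (ι j) k) (F E : Type u) [Field F] [Algebra k F] [Field E]
    [Algebra k E] [Algebra F E] [IsScalarTower k F E] : H1 Φ F → H1 Φ E :=
  QuotientGroup.map (normGroup Φ F) (normGroup Φ E) (Units.map (algebraMap F E : F →* E))
    (normGroup_le_comap Φ F E)

/-- The global-to-local map `H^1(k(X)) → ∏ H^1(k(X)_v)` over all closed points `v` of the affine
line over `k` outside `P`; `k(X)_v` is the completion. -/
noncomputable def theta {k : Type u} [Field k] {J : Type x} {ι : J → Type w}
    (Φ : ∀ j, MvPolynomial (ι j) k) (P : Set (HeightOneSpectrum k[X])) (y : H1 Φ (RatFunc k))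
    (v : {v : HeightOneSpectrum k[X] // v ∉ P}) : H1 Φ (v.1.adicCompletion (RatFunc k)) :=
  res Φ (RatFunc k) (v.1.adicCompletion (RatFunc k)) y

end Pool.H24.NT
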