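import Pool.Agent.H24.NT.Val

/-!
Groups of values in `K = k(X)` which contain all `n`-th powers; rational functions which are
values up to a constant, and their description by orders.
-/

namespace Pool.H24.NT

open Polynomial IsDedekindDomain

variable {k : Type*} [Field k] {K : Type*} [Field K] [Algebra k[X] K] [IsFractionRing k[X] K]
  [Algebra k K] [IsScalarTower k k[X] K]

/-- A set closed under multiplication and inversion, containing the `n`-th powers of nonzero
elements. -/
structure VG (n : ℕ) (N : K → Prop) : Prop where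
  mul : ∀ f g, N f → N g → N (f * g)
  inv : ∀ f, N f → N f⁻¹
  pow_n : ∀ t, t ≠ 0 → N (t ^ n)

variable (k) in
/-- `f` is a value up to a nonzero constant. -/
def Good (N : K → Prop) (f : K) : Prop := ∃ s : k, s ≠ 0 ∧ N (algebraMap k K s * f)

variable {n : ℕ} {N : K → Prop}

section basic

omit [Algebra k[X] K] [IsFractionRing k[X] K] [IsScalarTower k k[X] K]

theorem VG.one (h : VG n N) : N 1 := by
  have := h.pow_n 1 one_ne_zero
  rwa [one_pow] at this

theorem VG.good {f : K} (h : N f) : Good k N f := ⟨1, one_ne_zero, by rwa [map_one, one_mul]⟩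

theorem VG.good_mul (h : VG n N) {f g : K} (hf : Good k N f) (hg : Good k N g) :
    Good k N (f * g) := by
  obtain ⟨s, hs, h1⟩ := hf
  obtain ⟨t, ht, h2⟩ := hg
  refine ⟨s * t, mul_ne_zero hs ht, ?_⟩
  have := h.mul _ _ h1 h2
  rw [map_mul]
  have e : algebraMap k K s * algebraMap k K t * (f * g) =
      algebraMap k K s * f * (algebraMap k K t * g) := by ring
  rwa [e]

theorem VG.good_inv (h : VG n N) {f : K} (hf : Good k N f) : Good k N f⁻¹ := by
  obtain ⟨s, hs, h1⟩ := hf
  refine ⟨s⁻¹, inv_ne_zero hs, ?_⟩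
  have := h.inv _ h1
  rw [map_inv₀]
  rwa [mul_inv] at this

theorem VG.good_div (h : VG n N) {f g : K} (hf : Good k N f) (hg : Good k N g) :
    Good k N (f / g) := by
  rw [div_eq_mul_inv]
  exact h.good_mul hf (h.good_inv hg)

theorem VG.good_const (h : VG n N) {s : k} (hs : s ≠ 0) : Good k N (algebraMap k K s) := by
  refine ⟨s⁻¹, inv_ne_zero hs, ?_⟩
  rw [← map_mul, inv_mul_cancel₀ hs, map_one]
  exact h.one

theorem VG.good_one (h : VG n N) : Good k N (1 : K) := VG.good h.one

theorem VG.good_pow_n (h : VG n N) {t : K} (ht : t ≠ 0) : Good k N (t ^ n) :=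
  VG.good (h.pow_n t ht)

theorem VG.good_pow (h : VG n N) {f : K} (hf : Good k N f) (m : ℕ) : Good k N (f ^ m) := by
  induction m with
  | zero => rw [pow_zero]; exact h.good_one
  | succ m ih => rw [pow_succ]; exact h.good_mul ih hf

end basic

theorem VG.good_unit (h : VG n N) {x : k[X]} (hx : IsUnit x) :
    Good k N (algebraMap k[X] K x) := by
  obtain ⟨s, hs, rfl⟩ := Polynomial.isUnit_iff.1 hx
  rw [← Polynomial.algebraMap_eq, ← IsScalarTower.algebraMap_apply]
  exact h.good_const hs.ne_zero

theorem VG.good_assoc (h : VG n N) {x y : k[X]} (hxy : Associated x y)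
    (hx : Good k N (algebraMap k[X] K x)) : Good k N (algebraMap k[X] K y) := by
  obtain ⟨u, rfl⟩ := hxy
  rw [map_mul]
  exact h.good_mul hx (h.good_unit u.isUnit)

/-- The generator of `v` to the order of `f` at `v` is a value up to a constant. -/
def GoodOrd (N : K → Prop) (v : HeightOneSpectrum k[X]) (f : K) : Prop :=
  Good k N ((algebraMap k[X] K (gen v)) ^ (ord K v f))

theorem gen_ne (v : HeightOneSpectrum k[X]) : algebraMap k[X] K (gen v) ≠ 0 := by
  rw [Ne, IsFractionRing.to_map_eq_zero_iff]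
  exact (gen_prime v).ne_zero

theorem VG.goodOrd_mul (h : VG n N) (v : HeightOneSpectrum k[X]) {f g : K} (hf0 : f ≠ 0)
    (hg0 : g ≠ 0) (hf : GoodOrd N v f) (hg : GoodOrd N v g) : GoodOrd N v (f * g) := by
  unfold GoodOrd
  rw [ord_mul v hf0 hg0, zpow_add₀ (gen_ne v)]
  exact h.good_mul hf hg

theorem VG.goodOrd_div (h : VG n N) (v : HeightOneSpectrum k[X]) {f g : K} (hf0 : f ≠ 0)
    (hg0 : g ≠ 0) (hf : GoodOrd N v f) (hg : GoodOrd N v g) : GoodOrd N v (f / g) := by
  unfold GoodOrd
  rw [ord_div v hf0 hg0, zpow_sub₀ (gen_ne v)]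
  exact h.good_div hf hg

theorem VG.goodOrd_of_dvd (h : VG n N) (v : HeightOneSpectrum k[X]) {f : K}
    (hd : (n : ℤ) ∣ ord K v f) : GoodOrd N v f := by
  obtain ⟨m, hm⟩ := hd
  unfold GoodOrd
  rw [hm, mul_comm, zpow_mul, zpow_natCast]
  exact h.good_pow_n (zpow_ne_zero _ (gen_ne v))

theorem VG.goodOrd_pow_n (h : VG n N) (v : HeightOneSpectrum k[X]) (t : K) :
    GoodOrd N v (t ^ n) := by
  apply h.goodOrd_of_dvd
  rw [ord_pow]
  exact dvd_mul_right _ _

theorem VG.goodOrd_zero (h : VG n N) (v : HeightOneSpectrum k[X]) {f : K}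
    (hd : ord K v f = 0) : GoodOrd N v f := by
  apply h.goodOrd_of_dvd
  rw [hd]
  exact dvd_zero _

theorem goodOrd_congr (v : HeightOneSpectrum k[X]) {f g : K}
    (hd : ord K v f = ord K v g) (hg : GoodOrd N v g) : GoodOrd N v f := by
  unfold GoodOrd
  rw [hd]
  exact hg

/-- A power of an irreducible polynomial which is good has good orders. -/
theorem VG.goodOrd_of_prime_pow (h : VG n N) (v : HeightOneSpectrum k[X]) {q : k[X]}
    (hq : Irreducible q) {j : ℕ} (hg : Good k N (algebraMap k[X] K (q ^ j))) :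
    GoodOrd N v (algebraMap k[X] K (q ^ j)) := by
  by_cases hm : q ∈ v.asIdeal
  · have h1 := span_of_mem v hq hm
    have h2 : ord K v (algebraMap k[X] K (q ^ j)) = j := by
      rw [map_pow, ord_pow, ord_of_span v hq.ne_zero h1, mul_one]
    unfold GoodOrd
    rw [h2, zpow_natCast, ← map_pow]
    have h3 : Associated q (gen v) := by
      rw [← Ideal.span_singleton_eq_span_singleton, ← h1, span_gen v]
    exact h.good_assoc (h3.pow_pow) hg
  · apply h.goodOrd_zero
    rw [map_pow, ord_pow, ord_notMem v hm, mul_zero]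

/-- Good orders everywhere imply good, for polynomials. -/
theorem VG.good_of_goodOrd_poly (h : VG n N) (F : k[X]) (hF0 : F ≠ 0)
    (hF : ∀ v : HeightOneSpectrum k[X], GoodOrd N v (algebraMap k[X] K F)) : Good k N (algebraMap k[X] K F) := by
  revert hF0 hF
  induction F using UniqueFactorizationMonoid.induction_on_coprime with
  | h0 => intro h0; exact absurd rfl h0
  | h1 hx => intro _ _; exact h.good_unit hx
  | hpr i hp =>
    rename_i p
    intro _ hF
    have h1 := hF (pt p hp.irreducible)
    have h2 : ord K (pt p hp.irreducible) (algebraMap k[X] K (p ^ i)) = i := by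
      rw [map_pow, ord_pow, ord_of_span (pt p hp.irreducible) hp.ne_zero rfl, mul_one]
    unfold GoodOrd at h1
    rw [h2, zpow_natCast, ← map_pow] at h1
    have h3 : Associated (gen (pt p hp.irreducible)) p := by
      rw [← Ideal.span_singleton_eq_span_singleton, ← span_gen]
      rfl
    exact h.good_assoc (h3.pow_pow) h1
  | hcp hxy ihx ihy =>
    rename_i x y
    intro h0 hF
    have hx0 : x ≠ 0 := left_ne_zero_of_mul h0
    have hy0 : y ≠ 0 := right_ne_zero_of_mul h0
    have hx0' : algebraMap k[X] K x ≠ 0 := by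
      rwa [Ne, IsFractionRing.to_map_eq_zero_iff]
    have hy0' : algebraMap k[X] K y ≠ 0 := by
      rwa [Ne, IsFractionRing.to_map_eq_zero_iff]
    have hdis : ∀ v : HeightOneSpectrum k[X], x ∈ v.asIdeal → y ∉ v.asIdeal := by
      intro v h1 h2
      have h3 := hxy ((mem_iff_gen_dvd v x).1 h1) ((mem_iff_gen_dvd v y).1 h2)
      exact (gen_prime v).not_unit h3
    rw [map_mul]
    refine h.good_mul (ihx hx0 ?_) (ihy hy0 ?_)
    · intro v
      by_cases hm : x ∈ v.asIdeal
      · have h1 := hF v
        rw [map_mul] at h1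
        refine goodOrd_congr v ?_ h1
        rw [ord_mul v hx0' hy0', ord_notMem v (hdis v hm), add_zero]
      · exact h.goodOrd_zero v (ord_notMem v hm)
    · intro v
      by_cases hm : y ∈ v.asIdeal
      · have h1 := hF v
        rw [map_mul] at h1
        refine goodOrd_congr v ?_ h1
        have h2 : x ∉ v.asIdeal := fun h3 => hdis v h3 hm
        rw [ord_mul v hx0' hy0', ord_notMem v h2, zero_add]
      · exact h.goodOrd_zero v (ord_notMem v hm)

/-- Good orders everywhere imply good. -/
theorem VG.good_of_goodOrd (h : VG n N) (hn : 0 < n) (f : K) (hf0 : f ≠ 0)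
    (hf : ∀ v : HeightOneSpectrum k[X], GoodOrd N v f) : Good k N f := by
  obtain ⟨x, y, hy, rfl⟩ := IsFractionRing.div_surjective (A := k[X]) f
  have hy0 : algebraMap k[X] K y ≠ 0 := by
    rw [Ne, IsFractionRing.to_map_eq_zero_iff]
    exact nonZeroDivisors.ne_zero hy
  have hx0 : algebraMap k[X] K x ≠ 0 := by
    intro h0
    rw [h0, zero_div] at hf0
    exact hf0 rfl
  obtain ⟨m, rfl⟩ : ∃ m, n = m + 1 := ⟨n - 1, by omega⟩
  have e1 : algebraMap k[X] K x / algebraMap k[X] K y * (algebraMap k[X] K y) ^ (m + 1) =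
      algebraMap k[X] K (x * y ^ m) := by
    rw [map_mul, map_pow, pow_succ]
    field_simp
  have h1 : Good k N (algebraMap k[X] K (x * y ^ m)) := by
    apply h.good_of_goodOrd_poly
    · refine mul_ne_zero ?_ (pow_ne_zero _ (nonZeroDivisors.ne_zero hy))
      rintro rfl
      exact hx0 (map_zero _)
    · intro v
      rw [← e1]
      exact h.goodOrd_mul v hf0 (pow_ne_zero _ hy0) (hf v) (h.goodOrd_pow_n v _)
  rw [← e1] at h1
  have h2 := h.good_div h1 (h.good_pow_n hy0)
  rwa [mul_div_cancel_right₀ _ (pow_ne_zero _ hy0)] at h2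

end Pool.H24.NT
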