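import Pool.Agent.H24.NT.Poly
import Pool.Agent.H24.NT.Good

/-!
Division algebras: the values of the norm at nonzero elements of `D[X]` are products of
prime powers each of which is, up to a constant, a norm.
-/

namespace Pool.H24.NT

open Polynomial IsDedekindDomain

variable {k : Type*} [Field k] {D : Type*} [DivisionRing D] [Algebra k D]
variable {ι : Type*} [Fintype ι] {e : Module.Basis ι k D} {n : ℕ} {Φ : MvPolynomial ι k}
variable {K : Type*} [Field K] [Algebra k[X] K] [IsFractionRing k[X] K]
  [Algebra k K] [IsScalarTower k k[X] K]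

theorem MulForm.vg [Infinite k] (h : MulForm e n Φ) : VG n (fun f : K => IsN Φ f) where
  mul _ _ hf hg := h.isN_mul hf hg
  inv _ hf := h.isN_inv hf
  pow_n t _ := h.isN_pow_n t

theorem isN_poly (u : ι → k[X]) : IsN Φ (algebraMap k[X] K (MvPolynomial.aeval u Φ)) :=
  ⟨fun i => algebraMap k[X] K (u i), (aeval_map (IsScalarTower.toAlgHom k k[X] K) Φ u).symm⟩

/-- Evaluation of the form modulo `q`. -/
theorem aeval_congr_mod (q : k[X]) (u w : ι → k[X]) (h : ∀ i, q ∣ u i - w i) :
    q ∣ MvPolynomial.aeval u Φ - MvPolynomial.aeval w Φ := by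
  have e1 : ∀ z : ι → k[X], Ideal.Quotient.mk (Ideal.span {q}) (MvPolynomial.aeval z Φ) =
      MvPolynomial.aeval (fun i => Ideal.Quotient.mk (Ideal.span {q}) (z i)) Φ := by
    intro z
    exact aeval_map (Ideal.Quotient.mkₐ k (Ideal.span {q})) Φ z
  have e2 : ∀ i, Ideal.Quotient.mk (Ideal.span {q}) (u i) =
      Ideal.Quotient.mk (Ideal.span {q}) (w i) := by
    intro i
    rw [Ideal.Quotient.eq, Ideal.mem_span_singleton]
    exact h i
  rw [← Ideal.mem_span_singleton, ← Ideal.Quotient.eq, e1, e1]
  simp only [e2]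

theorem goodOrd_norm [Infinite k] (h : MulForm e n Φ) : ∀ (m : ℕ) (u : ι → k[X]), u ≠ 0 →
    (toP e u).natDegree = m → ∀ v : HeightOneSpectrum k[X],
      GoodOrd (fun f : K => IsN Φ f) v (algebraMap k[X] K (MvPolynomial.aeval u Φ)) := by
  intro m
  induction m using Nat.strong_induction_on with
  | _ m ih =>
  intro u hu hm v
  have hvg : VG n (fun f : K => IsN Φ f) := h.vg
  have hF0 := h.poly_ne_zero hu
  by_cases hunit : IsUnit (MvPolynomial.aeval u Φ)
  · exact hvg.goodOrd_zero v (ord_unit v hunit)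
  · obtain ⟨q, hq, hqd⟩ := WfDvdMonoid.exists_irreducible_factor hunit hF0
    have hqD : q.map (algebraMap k D) ≠ 0 := by
      rw [Ne, Polynomial.map_eq_zero_iff (FaithfulSMul.algebraMap_injective k D)]
      exact hq.ne_zero
    obtain ⟨ε, α, β, γ, δ, hmon, h1, h2, h3⟩ := bezout (toP e u) (q.map (algebraMap k D)) hqD
    obtain ⟨ε', rfl⟩ := toP_surjective e ε
    obtain ⟨α', rfl⟩ := toP_surjective e α
    obtain ⟨β', rfl⟩ := toP_surjective e β
    obtain ⟨γ', rfl⟩ := toP_surjective e γ
    obtain ⟨δ', rfl⟩ := toP_surjective e δ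
    have hu1 : u = mulv e k[X] ε' α' := toP_injective e (by rw [toP_mulv]; exact h1)
    have hq1 : (fun i => q * onev e k[X] i) = mulv e k[X] ε' β' := by
      apply toP_injective e
      rw [toP_mulv, toP_smul, toP_onev, mul_one]
      exact h2
    have hε1 : ε' = fun i => mulv e k[X] u γ' i + q * δ' i := by
      apply toP_injective e
      rw [toP_add, toP_smul, toP_mulv]
      exact h3
    have hεne : (toP e ε').natDegree ≠ 0 := by
      intro h0
      have h4 : toP e ε' = 1 := (Polynomial.Monic.natDegree_eq_zero hmon).1 h0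
      have h5 : ε' = onev e k[X] := toP_injective e (by rw [h4, toP_onev])
      have h6 : q ∣ MvPolynomial.aeval ε' Φ - MvPolynomial.aeval (mulv e k[X] u γ') Φ := by
        apply aeval_congr_mod
        intro i
        refine ⟨δ' i, ?_⟩
        rw [congrFun hε1 i]
        ring
      rw [h5, h.aeval_one, h.aeval_mulv] at h6
      have h7 : q ∣ 1 := by
        have := dvd_add h6 (dvd_mul_of_dvd_left hqd (MvPolynomial.aeval γ' Φ))
        rwa [sub_add_cancel] at this
      exact hq.not_isUnit (isUnit_of_dvd_one h7)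
    have hα0 : α' ≠ 0 := by
      rintro rfl
      apply hF0
      rw [hu1, h.aeval_mulv]
      have : MvPolynomial.aeval (0 : ι → k[X]) Φ = 0 := by
        have h8 := h.aeval_smul (0 : k[X]) (0 : ι → k[X])
        rw [zero_pow h.pos.ne', zero_mul] at h8
        have h9 : (fun i => (0 : k[X]) * (0 : ι → k[X]) i) = 0 := by
          funext i
          rw [zero_mul]
          rfl
        rwa [h9] at h8
      rw [this, mul_zero]
    have hαP : toP e α' ≠ 0 := by
      intro h0
      apply hα0
      apply toP_injective e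
      rw [h0]
      simp [toP]
    have hdeg : (toP e α').natDegree < m := by
      rw [← hm, h1, natDegree_mul hmon.ne_zero hαP]
      omega
    have hN : MvPolynomial.aeval u Φ = MvPolynomial.aeval ε' Φ * MvPolynomial.aeval α' Φ := by
      conv_lhs => rw [hu1]
      rw [h.aeval_mulv]
    have hqn : MvPolynomial.aeval ε' Φ * MvPolynomial.aeval β' Φ = q ^ n := by
      rw [← h.aeval_mulv, ← hq1, h.aeval_scalar]
    obtain ⟨j, _, hj⟩ := (dvd_prime_pow hq.prime n).1 (Dvd.intro _ hqn)
    have hεN0 : MvPolynomial.aeval ε' Φ ≠ 0 := by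
      intro h0
      rw [hN, h0, zero_mul] at hF0
      exact hF0 rfl
    have hαN0 : MvPolynomial.aeval α' Φ ≠ 0 := by
      intro h0
      rw [hN, h0, mul_zero] at hF0
      exact hF0 rfl
    have hgq : Good k (fun f : K => IsN Φ f) (algebraMap k[X] K (q ^ j)) :=
      hvg.good_assoc hj (VG.good (isN_poly ε'))
    have hg1 := hvg.goodOrd_of_prime_pow v hq hgq
    have hg2 : GoodOrd (fun f : K => IsN Φ f) v (algebraMap k[X] K (MvPolynomial.aeval ε' Φ)) := by
      refine goodOrd_congr v ?_ hg1
      obtain ⟨w, hw⟩ := hj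
      have hinj := IsFractionRing.injective k[X] K
      rw [← hw, map_mul, ord_mul v ((map_ne_zero_iff _ hinj).2 hεN0)
        ((map_ne_zero_iff _ hinj).2 w.ne_zero), ord_unit v w.isUnit, add_zero]
    have hg3 := ih _ hdeg α' hα0 rfl v
    have hinj := IsFractionRing.injective k[X] K
    rw [hN, map_mul]
    exact hvg.goodOrd_mul v ((map_ne_zero_iff _ hinj).2 hεN0) ((map_ne_zero_iff _ hinj).2 hαN0)
      hg2 hg3

end Pool.H24.NT
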