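import Pool.Agent.H24.NT.Local
import Pool.Agent.H24.NT.Defs

/-!
The joint norm group of a family of division algebras: local elements have good orders, and
constants which are local norms at a rational point are norms.
-/

namespace Pool.H24.NT

open Polynomial IsDedekindDomain

universe u v w x

/-- `f` lies in the norm group. -/
def InG {k : Type u} [Field k] {J : Type x} {ι : J → Type w}
    (Φ : ∀ j, MvPolynomial (ι j) k) {F : Type u} [Field F] [Algebra k F] (f : F) : Prop :=
  ∃ g ∈ normGroup Φ F, (g : F) = f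

variable {k : Type u} [Field k] {J : Type x} {D : J → Type v} [∀ j, DivisionRing (D j)]
  [∀ j, Algebra k (D j)] {ι : J → Type w} [∀ j, Fintype (ι j)]
  {e : ∀ j, Module.Basis (ι j) k (D j)} {n : J → ℕ} {Φ : ∀ j, MvPolynomial (ι j) k}

section general

omit [∀ j, Fintype (ι j)]

variable {F : Type u} [Field F] [Algebra k F]

theorem InG.ne_zero {f : F} (hf : InG Φ f) : f ≠ 0 := by
  obtain ⟨g, _, rfl⟩ := hf
  exact g.ne_zero

theorem inG_units {g : Fˣ} : InG Φ (g : F) ↔ g ∈ normGroup Φ F := by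
  constructor
  · rintro ⟨g', hg', h⟩
    rwa [← Units.ext h]
  · intro h
    exact ⟨g, h, rfl⟩

theorem InG.mul {f g : F} (hf : InG Φ f) (hg : InG Φ g) : InG Φ (f * g) := by
  obtain ⟨a, ha, rfl⟩ := hf
  obtain ⟨b, hb, rfl⟩ := hg
  exact ⟨a * b, mul_mem ha hb, Units.val_mul a b⟩

theorem InG.inv {f : F} (hf : InG Φ f) : InG Φ f⁻¹ := by
  obtain ⟨a, ha, rfl⟩ := hf
  exact ⟨a⁻¹, inv_mem ha, Units.val_inv_eq_inv_val a⟩

theorem InG.div {f g : F} (hf : InG Φ f) (hg : InG Φ g) : InG Φ (f / g) := by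
  rw [div_eq_mul_inv]
  exact hf.mul hg.inv

theorem inG_one : InG Φ (1 : F) := ⟨1, one_mem _, Units.val_one⟩

theorem InG.zpow {f : F} (hf : InG Φ f) (m : ℤ) : InG Φ (f ^ m) := by
  obtain ⟨a, ha, rfl⟩ := hf
  exact ⟨a ^ m, zpow_mem ha m, Units.val_zpow_eq_zpow_val a m⟩

theorem inG_of_isN {j : J} {f : F} (hf0 : f ≠ 0) (hf : IsN (Φ j) f) : InG Φ f := by
  obtain ⟨u, hu⟩ := hf
  refine ⟨Units.mk0 f hf0, Subgroup.subset_closure ⟨j, u, ?_⟩, rfl⟩
  rw [hu]
  rfl

theorem InG.map {E : Type u} [Field E] [Algebra k E] [Algebra F E] [IsScalarTower k F E]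
    {f : F} (hf : InG Φ f) : InG Φ (algebraMap F E f) := by
  obtain ⟨g, hg, rfl⟩ := hf
  exact ⟨Units.map (algebraMap F E : F →* E) g, normGroup_le_comap Φ F E hg, rfl⟩

end general

theorem inG_pow (h : ∀ j, MulForm (e j) (n j) (Φ j)) (j : J) {F : Type u} [Field F]
    [Algebra k F] {t : F} (ht : t ≠ 0) : InG Φ (t ^ n j) :=
  inG_of_isN (pow_ne_zero _ ht) ((h j).isN_pow_n t)

/-- The group generated by the degrees. -/
def degGroup (n : J → ℕ) : AddSubgroup ℤ := AddSubgroup.closure {m | ∃ j, m = n j}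

theorem inG_of_mem_degGroup (h : ∀ j, MulForm (e j) (n j) (Φ j)) {F : Type u} [Field F]
    [Algebra k F] {t : F} (ht : t ≠ 0) {m : ℤ} (hm : m ∈ degGroup n) : InG Φ (t ^ m) := by
  unfold degGroup at hm
  induction hm using AddSubgroup.closure_induction with
  | mem m hm =>
    obtain ⟨j, rfl⟩ := hm
    rw [zpow_natCast]
    exact inG_pow h j ht
  | zero => rw [zpow_zero]; exact inG_one
  | add a b _ _ ha hb => rw [zpow_add₀ ht]; exact ha.mul hb
  | neg a _ ha => rw [zpow_neg]; exact ha.inv

/-- If the degrees generate `ℤ`, everything is in the norm group. -/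
theorem inG_of_top (h : ∀ j, MulForm (e j) (n j) (Φ j)) (ht : degGroup n = ⊤) {F : Type u}
    [Field F] [Algebra k F] {f : F} (hf : f ≠ 0) : InG Φ f := by
  have h1 : (1 : ℤ) ∈ degGroup n := ht ▸ AddSubgroup.mem_top 1
  have h2 := inG_of_mem_degGroup h hf h1
  rwa [zpow_one] at h2

theorem inG_vg (h : ∀ j, MulForm (e j) (n j) (Φ j)) (j : J) :
    VG (n j) (fun f : RatFunc k => InG Φ f) where
  mul _ _ hf hg := hf.mul hg
  inv _ hf := hf.inv
  pow_n _ ht := inG_pow h j ht

theorem good_mono {j : J} {f : RatFunc k} (hf0 : f ≠ 0)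
    (hf : Good k (fun g : RatFunc k => IsN (Φ j) g) f) :
    Good k (fun g : RatFunc k => InG Φ g) f := by
  obtain ⟨s, hs, h1⟩ := hf
  refine ⟨s, hs, inG_of_isN (mul_ne_zero ?_ hf0) h1⟩
  rwa [Ne, map_eq_zero]

/-- Local elements have good orders. -/
theorem local_inG [Infinite k] (h : ∀ j, MulForm (e j) (n j) (Φ j)) (j₀ : J)
    (v : HeightOneSpectrum k[X]) (c : (v.adicCompletion (RatFunc k))ˣ)
    (hc : c ∈ normGroup Φ (v.adicCompletion (RatFunc k))) :
    Good k (fun g : RatFunc k => InG Φ g) ((algebraMap k[X] (RatFunc k) (gen v)) ^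
      (-WithZero.log (Valued.v (c : v.adicCompletion (RatFunc k))))) := by
  have hvg := inG_vg h j₀
  unfold normGroup at hc
  induction hc using Subgroup.closure_induction with
  | mem c hc =>
    obtain ⟨j, u, hu⟩ := hc
    exact good_mono (zpow_ne_zero _ (gen_ne v)) (local_value (h j) v _ c.ne_zero ⟨u, hu⟩)
  | one =>
    rw [Units.val_one, map_one, WithZero.log_one, neg_zero, zpow_zero]
    exact hvg.good_one
  | mul a b _ _ ha hb =>
    rw [Units.val_mul, map_mul, WithZero.log_mul ((Valuation.ne_zero_iff _).2 a.ne_zero)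
      ((Valuation.ne_zero_iff _).2 b.ne_zero), neg_add, zpow_add₀ (gen_ne v)]
    exact hvg.good_mul ha hb
  | inv a _ ha =>
    rw [Units.val_inv_eq_inv_val, map_inv₀, WithZero.log_inv, zpow_neg]
    exact hvg.good_inv ha

theorem local_inG_goodOrd [Infinite k] (h : ∀ j, MulForm (e j) (n j) (Φ j)) (j₀ : J)
    (v : HeightOneSpectrum k[X]) {f : RatFunc k}
    (hN : InG Φ (algebraMap (RatFunc k) (v.adicCompletion (RatFunc k)) f)) :
    GoodOrd (fun g : RatFunc k => InG Φ g) v f := by
  obtain ⟨c, hc, hcf⟩ := hN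
  have h1 := local_inG h j₀ v c hc
  rw [hcf, valued_algebraMap] at h1
  exact h1

/-- Elements of the group of orders are good. -/
theorem good_of_mem_ordGroup [Infinite k] (h : ∀ j, MulForm (e j) (n j) (Φ j)) (j₀ : J)
    (v : HeightOneSpectrum k[X]) (m : ℤ) (hm : m ∈ ordGroup Φ v) :
    Good k (fun f : RatFunc k => InG Φ f) ((algebraMap k[X] (RatFunc k) (gen v)) ^ m) := by
  have hvg := inG_vg h j₀
  unfold ordGroup at hm
  induction hm using AddSubgroup.closure_induction with
  | mem m hm =>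
    obtain ⟨j, u, hu0, rfl⟩ := hm
    have h1 := good_mono (zpow_ne_zero _ (gen_ne v)) (local_value (h j) v _ hu0 ⟨u, rfl⟩)
    have h2 := hvg.good_inv h1
    rwa [← zpow_neg, neg_neg] at h2
  | zero => rw [zpow_zero]; exact hvg.good_one
  | add a b _ _ ha hb => rw [zpow_add₀ (gen_ne v)]; exact hvg.good_mul ha hb
  | neg a _ ha => rw [zpow_neg]; exact hvg.good_inv ha

/-- `n j` is an order. -/
theorem n_mem_ordGroup (h : ∀ j, MulForm (e j) (n j) (Φ j)) (j : J)
    (v : HeightOneSpectrum k[X]) : (n j : ℤ) ∈ ordGroup Φ v := by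
  have h0 : algebraMap (RatFunc k) (v.adicCompletion (RatFunc k))
      (algebraMap k[X] (RatFunc k) (gen v)) ≠ 0 := by
    rw [Ne, map_eq_zero]
    exact gen_ne v
  have h1 : (-(n j : ℤ)) ∈ ordGroup Φ v := by
    apply AddSubgroup.subset_closure
    refine ⟨j, fun i => algebraMap (RatFunc k) (v.adicCompletion (RatFunc k))
        (algebraMap k[X] (RatFunc k) (gen v)) *
          onev (e j) (v.adicCompletion (RatFunc k)) i, ?_, ?_⟩
    · rw [(h j).aeval_scalar]
      exact pow_ne_zero _ h0
    · rw [(h j).aeval_scalar, map_pow, WithZero.log_pow, valued_algebraMap]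
      have h2 := ord_of_span (K := RatFunc k) v (gen_prime v).ne_zero (span_gen v)
      unfold ord at h2
      have h3 : WithZero.log (v.valuation (RatFunc k) (algebraMap k[X] (RatFunc k) (gen v))) =
        -1 := by omega
      rw [h3, nsmul_eq_mul]
      ring
  have h2 := (ordGroup Φ v).neg_mem h1
  rwa [neg_neg] at h2

theorem index_dvd (h : ∀ j, MulForm (e j) (n j) (Φ j)) (j : J)
    (v : HeightOneSpectrum k[X]) : (ordGroup Φ v).index ∣ n j := by
  have h1 : AddSubgroup.zmultiples (n j : ℤ) ≤ ordGroup Φ v := by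
    rw [AddSubgroup.zmultiples_le]
    exact n_mem_ordGroup h j v
  have h2 := AddSubgroup.index_dvd_of_le h1
  rwa [Int.index_zmultiples, Int.natAbs_natCast] at h2

/-- The leading term at a rational point of an element of the local norm group. -/
theorem lead_inG (h : ∀ j, MulForm (e j) (n j) (Φ j)) (v : HeightOneSpectrum k[X]) (α : k)
    (hv : v.asIdeal = Ideal.span {X - C α}) (c : (v.adicCompletion (RatFunc k))ˣ)
    (hc : c ∈ normGroup Φ (v.adicCompletion (RatFunc k))) :
    ∃ (m : ℤ) (g : k), InG Φ g ∧ m ∈ degGroup n ∧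
      Valued.v ((c : v.adicCompletion (RatFunc k)) * algebraMap (RatFunc k)
        (v.adicCompletion (RatFunc k)) (algebraMap k[X] (RatFunc k) (X - C α)) ^ (-m) -
        algebraMap (RatFunc k) (v.adicCompletion (RatFunc k)) (algebraMap k (RatFunc k) g)) <
        1 := by
  have hT : algebraMap k[X] (RatFunc k) (X - C α) ≠ 0 :=
    (map_ne_zero_iff _ (IsFractionRing.injective k[X] (RatFunc k))).2
      (irreducible_X_sub_C α).ne_zero
  set A : RatFunc k →+* v.adicCompletion (RatFunc k) :=
    algebraMap (RatFunc k) (v.adicCompletion (RatFunc k)) with hA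
  set T : v.adicCompletion (RatFunc k) := A (algebraMap k[X] (RatFunc k) (X - C α)) with hTd
  have hTne : T ≠ 0 := by
    rw [hTd, Ne, map_eq_zero]
    exact hT
  have hgv : ∀ g : k, g ≠ 0 → Valued.v (A (algebraMap k (RatFunc k) g)) = 1 := by
    intro g hg
    rw [hA, valued_algebraMap]
    have hgC : algebraMap k (RatFunc k) g = algebraMap k[X] (RatFunc k) (C g) := by
      rw [IsScalarTower.algebraMap_apply k k[X] (RatFunc k), Polynomial.algebraMap_eq]
    rw [hgC, v.valuation_eq_one_iff_notMem]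
    intro hm
    have h1 := v.isPrime
    exact h1.ne_top (Ideal.eq_top_of_isUnit_mem _ hm (Polynomial.isUnit_C.2 hg.isUnit))
  have hunit : ∀ (x : v.adicCompletion (RatFunc k)) (g : k), g ≠ 0 →
      Valued.v (x - A (algebraMap k (RatFunc k) g)) < 1 → Valued.v x = 1 := by
    intro x g hg hx
    rw [← hgv g hg]
    apply Valuation.map_eq_of_sub_lt
    rw [hgv g hg]
    exact hx
  unfold normGroup at hc
  induction hc using Subgroup.closure_induction with
  | mem c hc =>
    obtain ⟨j, u, hu⟩ := hc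
    obtain ⟨m, g, hg0, hg, hm, hlt⟩ := lead_value (h j) v α hv (c : v.adicCompletion (RatFunc k))
      c.ne_zero ⟨u, hu⟩
    refine ⟨m, g, inG_of_isN hg0 hg, ?_, hlt⟩
    obtain ⟨r, rfl⟩ := hm
    rw [mul_comm]
    have h1 : (n j : ℤ) ∈ degGroup n := AddSubgroup.subset_closure ⟨j, rfl⟩
    have h2 := (degGroup n).zsmul_mem h1 r
    rwa [smul_eq_mul] at h2
  | one =>
    refine ⟨0, 1, inG_one, (degGroup n).zero_mem, ?_⟩
    rw [Units.val_one, neg_zero, zpow_zero, mul_one, map_one, map_one, sub_self, map_zero]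
    exact zero_lt_one
  | mul a b _ _ ha hb =>
    obtain ⟨m, g, hg, hm, h1⟩ := ha
    obtain ⟨m', g', hg', hm', h2⟩ := hb
    refine ⟨m + m', g * g', hg.mul hg', (degGroup n).add_mem hm hm', ?_⟩
    have hx := hunit _ g hg.ne_zero h1
    have e1 : ((a * b : (v.adicCompletion (RatFunc k))ˣ) : v.adicCompletion (RatFunc k)) *
        T ^ (-(m + m')) - A (algebraMap k (RatFunc k) (g * g')) =
        ((a : v.adicCompletion (RatFunc k)) * T ^ (-m)) *
          ((b : v.adicCompletion (RatFunc k)) * T ^ (-m') - A (algebraMap k (RatFunc k) g')) +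
        ((a : v.adicCompletion (RatFunc k)) * T ^ (-m) - A (algebraMap k (RatFunc k) g)) *
          A (algebraMap k (RatFunc k) g') := by
      rw [neg_add, zpow_add₀ hTne, Units.val_mul, map_mul, map_mul]
      ring
    rw [e1]
    apply Valuation.map_add_lt
    · rw [map_mul, hx, one_mul]
      exact h2
    · rw [map_mul, hgv g' hg'.ne_zero, mul_one]
      exact h1
  | inv a _ ha =>
    obtain ⟨m, g, hg, hm, h1⟩ := ha
    refine ⟨-m, g⁻¹, hg.inv, (degGroup n).neg_mem hm, ?_⟩
    have hx := hunit _ g hg.ne_zero h1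
    have hgne : A (algebraMap k (RatFunc k) g) ≠ 0 := by
      intro h0
      have := hgv g hg.ne_zero
      rw [h0, map_zero] at this
      exact zero_ne_one this
    have e1 : ((a⁻¹ : (v.adicCompletion (RatFunc k))ˣ) : v.adicCompletion (RatFunc k)) *
        T ^ (-(-m)) - A (algebraMap k (RatFunc k) g⁻¹) =
        -((a : v.adicCompletion (RatFunc k)) * T ^ (-m) - A (algebraMap k (RatFunc k) g)) /
          (((a : v.adicCompletion (RatFunc k)) * T ^ (-m)) * A (algebraMap k (RatFunc k) g)) := by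
      rw [Units.val_inv_eq_inv_val, neg_neg, map_inv₀, map_inv₀, zpow_neg]
      have ha0 := a.ne_zero
      have hTm : T ^ m ≠ 0 := zpow_ne_zero _ hTne
      field_simp
      ring
    rw [e1, map_div₀, map_mul, hx, hgv g hg.ne_zero, Valuation.map_neg, mul_one, div_one]
    exact h1

/-- The orders at a rational point lie in the group generated by the degrees. -/
theorem log_mem_degGroup (h : ∀ j, MulForm (e j) (n j) (Φ j)) (v : HeightOneSpectrum k[X])
    (α : k) (hv : v.asIdeal = Ideal.span {X - C α}) (j : J)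
    (u : ι j → v.adicCompletion (RatFunc k)) (hu : MvPolynomial.aeval u (Φ j) ≠ 0) :
    WithZero.log (Valued.v (MvPolynomial.aeval u (Φ j))) ∈ degGroup n := by
  obtain ⟨m, g, hg0, hg, ⟨r, hr⟩, hlt⟩ := lead_value (h j) v α hv _ hu ⟨u, rfl⟩
  have hT : algebraMap k[X] (RatFunc k) (X - C α) ≠ 0 :=
    (map_ne_zero_iff _ (IsFractionRing.injective k[X] (RatFunc k))).2
      (irreducible_X_sub_C α).ne_zero
  have hgv : Valued.v (algebraMap (RatFunc k) (v.adicCompletion (RatFunc k))
      (algebraMap k (RatFunc k) g)) = 1 := by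
    rw [valued_algebraMap]
    have hgC : algebraMap k (RatFunc k) g = algebraMap k[X] (RatFunc k) (C g) := by
      rw [IsScalarTower.algebraMap_apply k k[X] (RatFunc k), Polynomial.algebraMap_eq]
    rw [hgC, v.valuation_eq_one_iff_notMem]
    intro hm
    have h1 := v.isPrime
    exact h1.ne_top (Ideal.eq_top_of_isUnit_mem _ hm (Polynomial.isUnit_C.2 hg0.isUnit))
  have h1 : Valued.v (MvPolynomial.aeval u (Φ j) * algebraMap (RatFunc k)
      (v.adicCompletion (RatFunc k)) (algebraMap k[X] (RatFunc k) (X - C α)) ^ (-m)) = 1 := by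
    rw [← hgv]
    apply Valuation.map_eq_of_sub_lt
    rw [hgv]
    exact hlt
  have h2 := congrArg WithZero.log h1
  rw [map_mul, WithZero.log_mul ((Valuation.ne_zero_iff _).2 hu), WithZero.log_one, map_zpow₀,
    WithZero.log_zpow, valued_algebraMap] at h2
  · have h3 := ord_of_span (K := RatFunc k) v (irreducible_X_sub_C α).ne_zero hv
    unfold ord at h3
    have h4 : WithZero.log (v.valuation (RatFunc k) (algebraMap k[X] (RatFunc k) (X - C α))) =
      -1 := by omega
    rw [h4, smul_eq_mul] at h2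
    have h5 : WithZero.log (Valued.v (MvPolynomial.aeval u (Φ j))) = (-r) * (n j : ℤ) := by
      rw [hr] at h2
      linarith
    rw [h5]
    have h6 : (n j : ℤ) ∈ degGroup n := AddSubgroup.subset_closure ⟨j, rfl⟩
    have h7 := (degGroup n).zsmul_mem h6 (-r)
    rwa [smul_eq_mul] at h7
  · rw [Valuation.ne_zero_iff]
    apply zpow_ne_zero
    rw [Ne, map_eq_zero]
    exact hT

/-- If the degrees do not generate `ℤ`, the index at a rational point is not `1`. -/
theorem index_ne_one (h : ∀ j, MulForm (e j) (n j) (Φ j)) (v : HeightOneSpectrum k[X])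
    (α : k) (hv : v.asIdeal = Ideal.span {X - C α}) (hn : degGroup n ≠ ⊤) :
    (ordGroup Φ v).index ≠ 1 := by
  intro h1
  rw [AddSubgroup.index_eq_one] at h1
  apply hn
  rw [eq_top_iff, ← h1, ordGroup, AddSubgroup.closure_le]
  rintro m ⟨j, u, hu0, rfl⟩
  exact log_mem_degGroup h v α hv j u hu0

/-- A constant which is locally in the norm group at a rational point is in the norm group. -/
theorem const_inG (h : ∀ j, MulForm (e j) (n j) (Φ j)) (v : HeightOneSpectrum k[X]) (α : k)
    (hv : v.asIdeal = Ideal.span {X - C α}) {s : k} (hs : s ≠ 0)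
    (hN : InG Φ (algebraMap (RatFunc k) (v.adicCompletion (RatFunc k))
      (algebraMap k (RatFunc k) s))) : InG Φ s := by
  have hvC : ∀ t : k, t ≠ 0 → v.valuation (RatFunc k) (algebraMap k (RatFunc k) t) = 1 := by
    intro t ht
    have hgC : algebraMap k (RatFunc k) t = algebraMap k[X] (RatFunc k) (C t) := by
      rw [IsScalarTower.algebraMap_apply k k[X] (RatFunc k), Polynomial.algebraMap_eq]
    rw [hgC, v.valuation_eq_one_iff_notMem]
    intro hm
    have h1 := v.isPrime
    exact h1.ne_top (Ideal.eq_top_of_isUnit_mem _ hm (Polynomial.isUnit_C.2 ht.isUnit))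
  have hT : algebraMap k[X] (RatFunc k) (X - C α) ≠ 0 :=
    (map_ne_zero_iff _ (IsFractionRing.injective k[X] (RatFunc k))).2
      (irreducible_X_sub_C α).ne_zero
  obtain ⟨c, hc, hcs⟩ := hN
  obtain ⟨m, g, hg, _, hlt⟩ := lead_inG h v α hv c hc
  rw [hcs, ← map_zpow₀, ← map_mul, ← map_sub, valued_algebraMap] at hlt
  have h1 : v.valuation (RatFunc k) (algebraMap k (RatFunc k) s *
      algebraMap k[X] (RatFunc k) (X - C α) ^ (-m)) = 1 := by
    rw [← hvC g hg.ne_zero]
    apply Valuation.map_eq_of_sub_lt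
    rw [hvC g hg.ne_zero]
    exact hlt
  rw [map_mul, hvC s hs, one_mul, map_zpow₀] at h1
  have h2 := congrArg WithZero.log h1
  rw [WithZero.log_zpow, WithZero.log_one] at h2
  have h3 := ord_of_span (K := RatFunc k) v (irreducible_X_sub_C α).ne_zero hv
  unfold ord at h3
  have h4 : WithZero.log (v.valuation (RatFunc k) (algebraMap k[X] (RatFunc k) (X - C α))) =
    -1 := by omega
  rw [h4, smul_eq_mul] at h2
  have hm : m = 0 := by omega
  rw [hm, neg_zero, zpow_zero, mul_one, ← map_sub] at hlt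
  have h5 : s - g = 0 := by
    by_contra hne
    rw [hvC _ hne] at hlt
    exact lt_irrefl _ hlt
  rw [sub_eq_zero.1 h5]
  exact hg

/-- Infinitely many rational points: one of them avoids `P`. -/
theorem exists_rational [Infinite k] (h : ∀ j, MulForm (e j) (n j) (Φ j))
    (hn : degGroup n ≠ ⊤) (P : Set (HeightOneSpectrum k[X]))
    (hP : {v : HeightOneSpectrum k[X] | v ∈ P ∧ (ordGroup Φ v).index ≠ 1}.Finite) :
    ∃ (v : HeightOneSpectrum k[X]) (α : k), v ∉ P ∧ v.asIdeal = Ideal.span {X - C α} := by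
  classical
  let pts : k → HeightOneSpectrum k[X] := fun α => pt (X - C α) (irreducible_X_sub_C α)
  have hinj : Function.Injective pts := by
    intro α β hab
    have h1 : Ideal.span {X - C α} = Ideal.span {(X : k[X]) - C β} :=
      congrArg HeightOneSpectrum.asIdeal hab
    rw [Ideal.span_singleton_eq_span_singleton] at h1
    have h2 := h1.dvd
    rw [dvd_iff_isRoot, IsRoot] at h2
    simp only [eval_sub, eval_X, eval_C] at h2
    exact sub_eq_zero.1 h2
  have hinf : (Set.range pts).Infinite := Set.infinite_range_of_injective hinj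
  obtain ⟨v, ⟨α, rfl⟩, hv⟩ := hinf.exists_notMem_finset hP.toFinset
  refine ⟨pts α, α, ?_, rfl⟩
  intro hvP
  apply hv
  rw [Set.Finite.mem_toFinset]
  exact ⟨hvP, index_ne_one h _ α rfl hn⟩

/-- An element of `k(X)` which is locally in the norm group outside `P`, and whose orders at the
points of `P` are in the group of orders, is in the norm group. -/
theorem key [Infinite k] (h : ∀ j, MulForm (e j) (n j) (Φ j)) (j₀ : J)
    (P : Set (HeightOneSpectrum k[X]))
    (hP : {v : HeightOneSpectrum k[X] | v ∈ P ∧ (ordGroup Φ v).index ≠ 1}.Finite)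
    (f : RatFunc k) (hf : f ≠ 0)
    (hout : ∀ v : HeightOneSpectrum k[X], v ∉ P →
      InG Φ (algebraMap (RatFunc k) (v.adicCompletion (RatFunc k)) f))
    (hin : ∀ v : HeightOneSpectrum k[X], v ∈ P → ord (RatFunc k) v f ∈ ordGroup Φ v) :
    InG Φ f := by
  by_cases hn : degGroup n = ⊤
  · exact inG_of_top h hn hf
  have hvg := inG_vg h j₀
  have hgood : Good k (fun f : RatFunc k => InG Φ f) f := by
    apply hvg.good_of_goodOrd (h j₀).pos f hf
    intro v
    by_cases hv : v ∈ P
    · exact good_of_mem_ordGroup h j₀ v _ (hin v hv)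
    · exact local_inG_goodOrd h j₀ v (hout v hv)
  obtain ⟨s, hs, hN⟩ := hgood
  obtain ⟨v, α, hv, hα⟩ := exists_rational h hn P hP
  have h1 : InG Φ (algebraMap (RatFunc k) (v.adicCompletion (RatFunc k))
      (algebraMap k (RatFunc k) s)) := by
    have h2 : InG Φ (algebraMap (RatFunc k) (v.adicCompletion (RatFunc k))
        (algebraMap k (RatFunc k) s * f)) := InG.map hN
    have h3 := h2.div (hout v hv)
    have hf' : algebraMap (RatFunc k) (v.adicCompletion (RatFunc k)) f ≠ 0 := by
      rwa [Ne, map_eq_zero]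
    rw [map_mul, mul_div_cancel_right₀ _ hf'] at h3
    exact h3
  have h4 : InG Φ s := const_inG h v α hα hs h1
  have h5 : InG Φ (algebraMap k (RatFunc k) s) := h4.map
  have h6 := InG.div hN h5
  have hs' : algebraMap k (RatFunc k) s ≠ 0 := by
    rwa [Ne, map_eq_zero]
  rwa [mul_div_cancel_left₀ _ hs'] at h6

end Pool.H24.NT
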