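import Pool.Agent.H24.NT.DivAlg

/-!
Local values: an element of `K = k(X)` which is a value over the completion at `v` has a good
order at `v`; a constant which is a value over the completion at a rational point is a value.
-/

namespace Pool.H24.NT

open Polynomial IsDedekindDomain

section approx

variable {k : Type*} [Field k] {ι : Type*} [Fintype ι]
variable {K : Type*} [Field K] [Algebra k[X] K] [IsFractionRing k[X] K]
  [Algebra k K] [IsScalarTower k k[X] K]

theorem continuous_aeval_form {A : Type*} [CommRing A] [Algebra k A] [TopologicalSpace A]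
    [IsTopologicalRing A] (Φ : MvPolynomial ι k) :
    Continuous (fun x : ι → A => MvPolynomial.aeval x Φ) := by
  simp only [MvPolynomial.aeval_def, MvPolynomial.eval₂_eq]
  refine continuous_finsetSum _ fun d _ => ?_
  refine continuous_const.mul ?_
  refine continuous_finsetProd _ fun i _ => ?_
  exact (continuous_apply i).pow _

theorem isOpen_near (v : HeightOneSpectrum k[X]) (c : v.adicCompletion K) :
    IsOpen {y : v.adicCompletion K | Valued.v (y - c) < Valued.v c} := by
  have h1 := Valued.isOpen_ball (v.adicCompletion K) (Valued.v.restrict c)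
  have h2 : Continuous (fun y : v.adicCompletion K => y - c) := by fun_prop
  have h3 := h1.preimage h2
  simpa [Valuation.restrict_lt_iff] using h3

theorem denseRange_vec (v : HeightOneSpectrum k[X]) :
    DenseRange (fun (u : ι → K) (i : ι) => algebraMap K (v.adicCompletion K) (u i)) :=
  DenseRange.piMap (fun _ => HeightOneSpectrum.denseRange_algebraMap (K := K) v)

theorem valued_algebraMap (v : HeightOneSpectrum k[X]) (f : K) :
    Valued.v (algebraMap K (v.adicCompletion K) f) = v.valuation K f :=
  HeightOneSpectrum.valuedAdicCompletion_eq_valuation' v f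

/-- Approximation of a local value by a global one. -/
theorem approx' (v : HeightOneSpectrum k[X]) (Φ : MvPolynomial ι k) (c : v.adicCompletion K)
    (hc : c ≠ 0) (h : IsN Φ c) :
    ∃ u : ι → K, Valued.v (algebraMap K (v.adicCompletion K) (MvPolynomial.aeval u Φ) - c) <
      Valued.v c := by
  obtain ⟨û, hû⟩ := h
  have hopen := (isOpen_near v c).preimage
    (continuous_aeval_form (A := v.adicCompletion K) Φ)
  have hmem : û ∈ (fun x : ι → v.adicCompletion K => MvPolynomial.aeval x Φ) ⁻¹'
      {y : v.adicCompletion K | Valued.v (y - c) < Valued.v c} := by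
    rw [Set.mem_preimage, Set.mem_ofPred_eq, hû, sub_self, map_zero]
    exact zero_lt_iff.2 ((Valuation.ne_zero_iff _).2 hc)
  obtain ⟨u, hu⟩ := (denseRange_vec (ι := ι) (K := K) v).exists_mem_open hopen ⟨û, hmem⟩
  refine ⟨u, ?_⟩
  rw [Set.mem_preimage, Set.mem_ofPred_eq] at hu
  have e1 : MvPolynomial.aeval (fun i => algebraMap K (v.adicCompletion K) (u i)) Φ =
      algebraMap K (v.adicCompletion K) (MvPolynomial.aeval u Φ) :=
    (aeval_map (IsScalarTower.toAlgHom k K (v.adicCompletion K)) Φ u).symm
  rw [e1] at hu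
  exact hu

theorem approx (v : HeightOneSpectrum k[X]) (Φ : MvPolynomial ι k) {f : K} (hf : f ≠ 0)
    (h : IsN Φ (algebraMap K (v.adicCompletion K) f)) :
    ∃ u : ι → K, v.valuation K (MvPolynomial.aeval u Φ - f) < v.valuation K f := by
  obtain ⟨u, hu⟩ := approx' v Φ (algebraMap K (v.adicCompletion K) f)
    (by rwa [Ne, map_eq_zero]) h
  refine ⟨u, ?_⟩
  rw [← map_sub, valued_algebraMap, valued_algebraMap] at hu
  exact hu

/-- Common denominators. -/
theorem exists_denom (u : ι → K) : ∃ (s : k[X]) (w : ι → k[X]), s ≠ 0 ∧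
    ∀ i, algebraMap k[X] K (w i) = algebraMap k[X] K s * u i := by
  obtain ⟨b, hb⟩ := IsLocalization.exist_integer_multiples_of_finite (nonZeroDivisors k[X]) u
  choose w hw using hb
  refine ⟨b, w, nonZeroDivisors.ne_zero b.2, fun i => ?_⟩
  rw [hw i, Algebra.smul_def]

/-- Removing powers of `p` from a vector of polynomials. -/
theorem exists_primitive {κ : Type*} (p : k[X]) (hp : Irreducible p) :
    ∀ (m : ℕ) (z : κ → k[X]) (i₀ : κ), z i₀ ≠ 0 → (z i₀).natDegree = m →
      ∃ (r : ℕ) (z' : κ → k[X]), (∀ i, z i = p ^ r * z' i) ∧ ¬ ∀ i, p ∣ z' i := by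
  intro m
  induction m using Nat.strong_induction_on with
  | _ m ih =>
  intro z i₀ h0 hm
  by_cases hall : ∀ i, p ∣ z i
  · choose y hy using hall
    have hy0 : y i₀ ≠ 0 := by
      intro h1
      apply h0
      rw [hy i₀, h1, mul_zero]
    have hdeg : (y i₀).natDegree < m := by
      rw [← hm, hy i₀, natDegree_mul hp.ne_zero hy0]
      have := hp.natDegree_pos
      omega
    obtain ⟨r, z', h1, h2⟩ := ih _ hdeg y i₀ hy0 rfl
    refine ⟨r + 1, z', fun i => ?_, h2⟩
    rw [hy i, h1 i, pow_succ]
    ring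
  · exact ⟨0, z, fun i => by rw [pow_zero, one_mul], hall⟩

end approx

section local'

variable {k : Type*} [Field k] {D : Type*} [DivisionRing D] [Algebra k D]
variable {ι : Type*} [Fintype ι] {e : Module.Basis ι k D} {n : ℕ} {Φ : MvPolynomial ι k}
variable {K : Type*} [Field K] [Algebra k[X] K] [IsFractionRing k[X] K]
  [Algebra k K] [IsScalarTower k k[X] K]

/-- A global value has a good order. -/
theorem value_goodOrd [Infinite k] (h : MulForm e n Φ) (v : HeightOneSpectrum k[X])
    (u : ι → K) (hNu : MvPolynomial.aeval u Φ ≠ 0) :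
    GoodOrd (fun g : K => IsN Φ g) v (MvPolynomial.aeval u Φ) := by
  have hvg : VG n (fun f : K => IsN Φ f) := h.vg
  obtain ⟨s, w, hs, hw⟩ := exists_denom (k := k) u
  have hs' : algebraMap k[X] K s ≠ 0 := by
    rwa [Ne, IsFractionRing.to_map_eq_zero_iff]
  have e1 : algebraMap k[X] K (MvPolynomial.aeval w Φ) =
      algebraMap k[X] K s ^ n * MvPolynomial.aeval u Φ := by
    rw [← h.aeval_smul]
    have e2 : algebraMap k[X] K (MvPolynomial.aeval w Φ) =
        MvPolynomial.aeval (fun i => algebraMap k[X] K (w i)) Φ :=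
      aeval_map (IsScalarTower.toAlgHom k k[X] K) Φ w
    rw [e2]
    simp only [hw]
  have hw0 : w ≠ 0 := by
    rintro rfl
    have h1 : ∀ i, u i = 0 := by
      intro i
      have := hw i
      rw [Pi.zero_apply, map_zero, eq_comm, mul_eq_zero] at this
      exact this.resolve_left hs'
    apply hNu
    have e3 : u = fun i => (0 : K) * u i := by
      funext i
      rw [h1 i, mul_zero]
    rw [e3, h.aeval_smul, zero_pow h.pos.ne', zero_mul]
  have h1 := goodOrd_norm (K := K) h _ w hw0 rfl v
  rw [e1] at h1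
  have h2 := hvg.goodOrd_div v (mul_ne_zero (pow_ne_zero _ hs') hNu) (pow_ne_zero n hs') h1
    (hvg.goodOrd_pow_n v _)
  rwa [mul_div_cancel_left₀ _ (pow_ne_zero _ hs')] at h2

/-- The order of a local value is the order of a global value. -/
theorem local_value [Infinite k] (h : MulForm e n Φ) (v : HeightOneSpectrum k[X])
    (c : v.adicCompletion K) (hc : c ≠ 0) (hN : IsN Φ c) :
    Good k (fun g : K => IsN Φ g) ((algebraMap k[X] K (gen v)) ^ (-WithZero.log (Valued.v c))) := by
  obtain ⟨u, hu⟩ := approx' v Φ c hc hN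
  have hval : Valued.v (algebraMap K (v.adicCompletion K) (MvPolynomial.aeval u Φ)) =
      Valued.v c := Valuation.map_eq_of_sub_lt _ hu
  rw [valued_algebraMap] at hval
  have hNu : MvPolynomial.aeval u Φ ≠ 0 := by
    intro h0
    rw [h0, map_zero] at hval
    exact (Valuation.ne_zero_iff _).2 hc hval.symm
  have h1 := value_goodOrd h v u hNu
  unfold GoodOrd ord at h1
  rwa [hval] at h1

/-- A local value has a good order. -/
theorem local_goodOrd [Infinite k] (h : MulForm e n Φ) (v : HeightOneSpectrum k[X]) {f : K}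
    (hf : f ≠ 0) (hN : IsN Φ (algebraMap K (v.adicCompletion K) f)) :
    GoodOrd (fun g : K => IsN Φ g) v f := by
  have h1 := local_value h v _ (by rwa [Ne, map_eq_zero]) hN
  rw [valued_algebraMap] at h1
  exact h1

/-- The leading term of a local value at a rational point. -/
theorem lead_value (h : MulForm e n Φ) (v : HeightOneSpectrum k[X]) (α : k)
    (hv : v.asIdeal = Ideal.span {X - C α}) (c : v.adicCompletion K) (hc : c ≠ 0)
    (hN : IsN Φ c) : ∃ (m : ℤ) (g : k), g ≠ 0 ∧ IsN Φ g ∧ (n : ℤ) ∣ m ∧
      Valued.v (c * algebraMap K (v.adicCompletion K) (algebraMap k[X] K (X - C α)) ^ (-m) -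
        algebraMap K (v.adicCompletion K) (algebraMap k K g)) < 1 := by
  have hinj := IsFractionRing.injective k[X] K
  have hp : Irreducible (X - C α) := irreducible_X_sub_C α
  obtain ⟨u, hu⟩ := approx' v Φ c hc hN
  have hval : Valued.v (algebraMap K (v.adicCompletion K) (MvPolynomial.aeval u Φ)) =
      Valued.v c := Valuation.map_eq_of_sub_lt _ hu
  have hNu : MvPolynomial.aeval u Φ ≠ 0 := by
    intro h0
    rw [h0, map_zero, map_zero] at hval
    exact (Valuation.ne_zero_iff _).2 hc hval.symm
  obtain ⟨s, w, hs, hw⟩ := exists_denom (k := k) u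
  have hs' : algebraMap k[X] K s ≠ 0 := (map_ne_zero_iff _ hinj).2 hs
  have hw0 : ∃ i, w i ≠ 0 := by
    by_contra hcon
    push Not at hcon
    apply hNu
    have e3 : u = fun i => (0 : K) * u i := by
      funext i
      have := hw i
      rw [hcon i, map_zero, eq_comm, mul_eq_zero] at this
      rw [this.resolve_left hs', mul_zero]
    rw [e3, h.aeval_smul, zero_pow h.pos.ne', zero_mul]
  obtain ⟨i₀, hi₀⟩ := hw0
  obtain ⟨r, z, hz, hprim⟩ := exists_primitive (X - C α) hp _ w i₀ hi₀ rfl
  obtain ⟨a, y, hy, hyprim⟩ := exists_primitive (X - C α) hp _ (fun _ : Unit => s) ()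
    (by exact hs) rfl
  have hy1 : s = (X - C α) ^ a * y () := hy ()
  have hy2 : (y ()).eval α ≠ 0 := by
    intro h0
    apply hyprim
    intro i
    rw [dvd_iff_isRoot, IsRoot]
    exact h0
  have hz0 : (fun i => (z i).eval α) ≠ 0 := by
    intro h0
    apply hprim
    intro i
    rw [dvd_iff_isRoot, IsRoot]
    exact congrFun h0 i
  have hyne : y () ≠ 0 := by
    intro h0
    rw [h0] at hy2
    exact hy2 eval_zero
  have hY : algebraMap k[X] K (y ()) ≠ 0 := (map_ne_zero_iff _ hinj).2 hyne
  have hT : algebraMap k[X] K (X - C α) ≠ 0 := (map_ne_zero_iff _ hinj).2 hp.ne_zero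
  have e1 : algebraMap k[X] K (MvPolynomial.aeval z Φ) =
      MvPolynomial.aeval (fun i => algebraMap k[X] K (z i)) Φ :=
    aeval_map (IsScalarTower.toAlgHom k k[X] K) Φ z
  have e2 : algebraMap k[X] K s ^ n * MvPolynomial.aeval u Φ =
      (algebraMap k[X] K (X - C α) ^ r) ^ n * algebraMap k[X] K (MvPolynomial.aeval z Φ) := by
    rw [e1, ← h.aeval_smul, ← h.aeval_smul]
    congr 2
    funext i
    rw [← hw i, hz i, map_mul, map_pow]
  refine ⟨(n : ℤ) * ((r : ℤ) - a), MvPolynomial.aeval (fun i => ((y ()).eval α)⁻¹ *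
    (z i).eval α) Φ, ?_, ⟨_, rfl⟩, dvd_mul_right _ _, ?_⟩
  · rw [h.aeval_smul]
    exact mul_ne_zero (pow_ne_zero _ (inv_ne_zero hy2)) (h.ne_zero hz0)
  · set g : k := MvPolynomial.aeval (fun i => ((y ()).eval α)⁻¹ * (z i).eval α) Φ with hg
    set T : K := algebraMap k[X] K (X - C α) with hTdef
    set Y : K := algebraMap k[X] K (y ()) with hYdef
    have hgne : g ≠ 0 := by
      rw [hg, h.aeval_smul]
      exact mul_ne_zero (pow_ne_zero _ (inv_ne_zero hy2)) (h.ne_zero hz0)
    have hgC : algebraMap k K g = algebraMap k[X] K (C g) := by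
      rw [IsScalarTower.algebraMap_apply k k[X] K, Polynomial.algebraMap_eq]
    have hgev : MvPolynomial.aeval (fun i => (z i).eval α) Φ = g * (y ()).eval α ^ n := by
      rw [hg, h.aeval_smul, inv_pow]
      field_simp
    have e3 : MvPolynomial.aeval u Φ * T ^ (-((n : ℤ) * ((r : ℤ) - a))) =
        algebraMap k[X] K (MvPolynomial.aeval z Φ) / Y ^ n := by
      have e4 : algebraMap k[X] K s = T ^ a * Y := by
        rw [hTdef, hYdef, ← map_pow, ← map_mul, ← hy1]
      rw [e4, mul_pow] at e2
      have e5 : T ^ (-((n : ℤ) * ((r : ℤ) - a))) = (T ^ a) ^ n / (T ^ r) ^ n := by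
        rw [eq_div_iff (pow_ne_zero _ (pow_ne_zero _ hT)), ← pow_mul, ← pow_mul,
          ← zpow_natCast T (r * n), ← zpow_natCast T (a * n), ← zpow_add₀ hT]
        congr 1
        push_cast
        ring
      rw [e5, eq_div_iff (pow_ne_zero _ hY), mul_div_assoc', div_mul_eq_mul_div,
        div_eq_iff (pow_ne_zero _ (pow_ne_zero _ hT))]
      linear_combination e2
    have hlt : v.valuation K (algebraMap k[X] K (MvPolynomial.aeval z Φ - C g * (y ()) ^ n)) <
        1 := by
      rw [v.valuation_lt_one_iff_mem, hv, Ideal.mem_span_singleton, dvd_iff_isRoot, IsRoot,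
        eval_sub, eval_mul, eval_C, eval_pow, ← hgev, sub_eq_zero]
      have := aeval_map (Polynomial.aeval α : k[X] →ₐ[k] k) Φ z
      simpa [Polynomial.coe_aeval_eq_eval] using this
    have hYv : v.valuation K (Y ^ n) = 1 := by
      rw [map_pow, hYdef, v.valuation_eq_one_iff_notMem.2, one_pow]
      rw [hv, Ideal.mem_span_singleton, dvd_iff_isRoot, IsRoot]
      exact hy2
    have hd1 : v.valuation K (MvPolynomial.aeval u Φ * T ^ (-((n : ℤ) * ((r : ℤ) - a))) -
        algebraMap k K g) < 1 := by
      have e6 : MvPolynomial.aeval u Φ * T ^ (-((n : ℤ) * ((r : ℤ) - a))) - algebraMap k K g =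
          algebraMap k[X] K (MvPolynomial.aeval z Φ - C g * (y ()) ^ n) / Y ^ n := by
        rw [e3, map_sub, map_mul, map_pow, ← hgC, ← hYdef, sub_div,
          mul_div_cancel_right₀ _ (pow_ne_zero _ hY)]
      rw [e6, map_div₀, hYv, div_one]
      exact hlt
    have hgv : v.valuation K (algebraMap k K g) = 1 := by
      rw [hgC, v.valuation_eq_one_iff_notMem]
      intro hm
      have h1 := v.isPrime
      exact h1.ne_top (Ideal.eq_top_of_isUnit_mem _ hm (Polynomial.isUnit_C.2 hgne.isUnit))
    have hd2 : v.valuation K (MvPolynomial.aeval u Φ * T ^ (-((n : ℤ) * ((r : ℤ) - a)))) =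
        1 := by
      rw [← hgv]
      apply Valuation.map_eq_of_sub_lt
      rw [hgv]
      exact hd1
    set A : K →+* v.adicCompletion K := algebraMap K (v.adicCompletion K) with hA
    have e7 : c * A T ^ (-((n : ℤ) * ((r : ℤ) - a))) - A (algebraMap k K g) =
        -(A (MvPolynomial.aeval u Φ) - c) * A T ^ (-((n : ℤ) * ((r : ℤ) - a))) +
          A (MvPolynomial.aeval u Φ * T ^ (-((n : ℤ) * ((r : ℤ) - a))) - algebraMap k K g) := by
      rw [hA, map_sub, map_mul, map_zpow₀]
      ring
    rw [e7]
    apply Valuation.map_add_lt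
    · rw [map_mul, Valuation.map_neg]
      have h5 : Valued.v c * Valued.v (A T ^ (-((n : ℤ) * ((r : ℤ) - a)))) = 1 := by
        rw [← hval, ← map_mul, hA, ← map_zpow₀, ← map_mul, valued_algebraMap]
        exact hd2
      rw [← h5]
      apply mul_lt_mul_of_pos_right hu
      rw [zero_lt_iff, Valuation.ne_zero_iff]
      apply zpow_ne_zero
      rw [hA, Ne, map_eq_zero]
      exact hT
    · rw [hA, valued_algebraMap]
      exact hd1

end local'

end Pool.H24.NT
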