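import Pool.Agent.H24.NT.Joint

/-!
The main theorem: bounded fibres of the global-to-local map of `F ↦ F^× / ∏ N(D_j ⊗ F)^×`
over `k(X)`.
-/

namespace Pool.H24.NT

open Polynomial IsDedekindDomain

universe u v w x

theorem values_subgroup {k : Type u} [Field k] [Infinite k] {D : Type v} [DivisionRing D]
    [Algebra k D] {ι : Type w} [Fintype ι] {e : Module.Basis ι k D} {n : ℕ}
    {Φ : MvPolynomial ι k} (h : MulForm e n Φ) (F : Type u) [Field F] [Algebra k F] :
    ∃ H : Subgroup Fˣ, ∀ f : Fˣ, f ∈ H ↔ ∃ u : ι → F, MvPolynomial.aeval u Φ = (f : F) := by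
  refine ⟨{ carrier := {f | IsN Φ (f : F)}
            mul_mem' := ?_
            one_mem' := ?_
            inv_mem' := ?_ }, fun f => Iff.rfl⟩
  · intro a b ha hb
    rw [Set.mem_ofPred_eq] at ha hb ⊢
    rw [Units.val_mul]
    exact h.isN_mul ha hb
  · rw [Set.mem_ofPred_eq, Units.val_one]
    exact h.isN_one
  · intro a ha
    rw [Set.mem_ofPred_eq] at ha ⊢
    rw [Units.val_inv_eq_inv_val]
    exact h.isN_inv ha

variable {k : Type u} [Field k] {J : Type x} {D : J → Type v} [∀ j, DivisionRing (D j)]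
  [∀ j, Algebra k (D j)] {ι : J → Type w} [∀ j, Fintype (ι j)]
  {e : ∀ j, Module.Basis (ι j) k (D j)} {n : J → ℕ} {Φ : ∀ j, MvPolynomial (ι j) k}

/-- The main theorem. -/
theorem main [Infinite k] (h : ∀ j, MulForm (e j) (n j) (Φ j)) (j₀ : J)
    (P : Set (HeightOneSpectrum k[X]))
    (hP : {v : HeightOneSpectrum k[X] | v ∈ P ∧ (ordGroup Φ v).index ≠ 1}.Finite)
    (x : ∀ v : {v : HeightOneSpectrum k[X] // v ∉ P}, H1 Φ (v.1.adicCompletion (RatFunc k))) :
    {y : H1 Φ (RatFunc k) | theta Φ P y = x}.Finite ∧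
      {y : H1 Φ (RatFunc k) | theta Φ P y = x}.ncard ≤
        ∏ v ∈ hP.toFinset, (ordGroup Φ v).index := by
  classical
  have hindex : ∀ v : HeightOneSpectrum k[X], (ordGroup Φ v).index ≠ 0 :=
    fun v h0 => (h j₀).pos.ne' (Nat.eq_zero_of_zero_dvd (h0 ▸ index_dvd h j₀ v))
  let P' : Finset (HeightOneSpectrum k[X]) := hP.toFinset
  have hfinq : ∀ v : P', Finite (ℤ ⧸ ordGroup Φ v.1) := fun v =>
    Nat.finite_of_card_ne_zero (hindex v.1)
  let S : Set (H1 Φ (RatFunc k)) := {y | theta Φ P y = x}
  let g : S → (∀ v : P', ℤ ⧸ ordGroup Φ v.1) :=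
    fun y v => QuotientAddGroup.mk (ord (RatFunc k) v.1 (y.1.out : RatFunc k))
  have hg : Function.Injective g := by
    rintro ⟨y, hy⟩ ⟨z, hz⟩ hyz
    have hyz' : ∀ v : HeightOneSpectrum k[X], v ∈ P →
        -ord (RatFunc k) v (z.out : RatFunc k) + ord (RatFunc k) v (y.out : RatFunc k) ∈
          ordGroup Φ v := by
      intro v hv
      by_cases hone : (ordGroup Φ v).index = 1
      · rw [AddSubgroup.index_eq_one] at hone
        rw [hone]
        exact AddSubgroup.mem_top _
      have hv' : v ∈ P' := (Set.Finite.mem_toFinset hP).2 ⟨hv, hone⟩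
      have h1 := congrFun hyz ⟨v, hv'⟩
      have h2 : (QuotientAddGroup.mk (ord (RatFunc k) v (z.out : RatFunc k)) :
          ℤ ⧸ ordGroup Φ v) = QuotientAddGroup.mk (ord (RatFunc k) v (y.out : RatFunc k)) :=
        h1.symm
      exact QuotientAddGroup.eq.1 h2
    apply Subtype.ext
    have hmem : (z.out⁻¹ * y.out : (RatFunc k)ˣ) ∈ normGroup Φ (RatFunc k) := by
      rw [← inG_units]
      apply key h j₀ P hP _ (Units.ne_zero _)
      · intro v hv
        have h1 : theta Φ P z ⟨v, hv⟩ = theta Φ P y ⟨v, hv⟩ := by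
          have e1 : theta Φ P z = x := hz
          have e2 : theta Φ P y = x := hy
          rw [e1, e2]
        have hz' : z = QuotientGroup.mk z.out := (QuotientGroup.out_eq' z).symm
        have hy' : y = QuotientGroup.mk y.out := (QuotientGroup.out_eq' y).symm
        have h2 : (QuotientGroup.mk (Units.map (algebraMap (RatFunc k)
            (v.adicCompletion (RatFunc k)) : RatFunc k →* _) z.out) :
            H1 Φ (v.adicCompletion (RatFunc k))) = QuotientGroup.mk (Units.map
            (algebraMap (RatFunc k) (v.adicCompletion (RatFunc k)) : RatFunc k →* _) y.out) := by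
          have e3 : theta Φ P z ⟨v, hv⟩ = QuotientGroup.mk (Units.map (algebraMap (RatFunc k)
            (v.adicCompletion (RatFunc k)) : RatFunc k →* _) z.out) := by
            conv_lhs => rw [hz']
            rfl
          have e4 : theta Φ P y ⟨v, hv⟩ = QuotientGroup.mk (Units.map (algebraMap (RatFunc k)
            (v.adicCompletion (RatFunc k)) : RatFunc k →* _) y.out) := by
            conv_lhs => rw [hy']
            rfl
          rw [← e3, ← e4, h1]
        rw [QuotientGroup.eq, ← inG_units] at h2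
        have e5 : (((Units.map (algebraMap (RatFunc k)
            (v.adicCompletion (RatFunc k)) : RatFunc k →* _) z.out)⁻¹ * Units.map
            (algebraMap (RatFunc k) (v.adicCompletion (RatFunc k)) : RatFunc k →* _) y.out :
            (v.adicCompletion (RatFunc k))ˣ) : v.adicCompletion (RatFunc k)) =
            algebraMap (RatFunc k) (v.adicCompletion (RatFunc k))
              ((z.out⁻¹ * y.out : (RatFunc k)ˣ) : RatFunc k) := by
          rw [← map_inv, ← map_mul]
          rfl
        rw [e5] at h2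
        exact h2
      · intro v hv
        rw [Units.val_mul, Units.val_inv_eq_inv_val, ord_mul v (inv_ne_zero (Units.ne_zero _))
          (Units.ne_zero _), ord_inv]
        exact hyz' v hv
    have hfin : (QuotientGroup.mk z.out : H1 Φ (RatFunc k)) = QuotientGroup.mk y.out :=
      QuotientGroup.eq.2 hmem
    rw [QuotientGroup.out_eq', QuotientGroup.out_eq'] at hfin
    exact hfin.symm
  have hfinS : Finite S := Finite.of_injective g hg
  refine ⟨Set.toFinite S, ?_⟩
  have h1 := Nat.card_le_card_of_injective g hg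
  have h2 : Nat.card (∀ v : P', ℤ ⧸ ordGroup Φ v.1) = ∏ v ∈ P', (ordGroup Φ v).index := by
    rw [Nat.card_pi, Finset.prod_coe_sort P' (fun v => Nat.card (ℤ ⧸ ordGroup Φ v))]
    rfl
  rw [h2, Nat.card_coe_set_eq] at h1
  exact h1

end Pool.H24.NT
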