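import Mathlib

/-!
Multiplicative forms on a finite-dimensional algebra `D` over an infinite field `k`:
`Φ` is a homogeneous polynomial of degree `n` in the coordinates with respect to a basis, and
`Φ (x y) = Φ x Φ y` on `D`. Then the same holds over every commutative `k`-algebra.
-/

namespace Pool.H24.NT

open MvPolynomial

section mul

variable {k : Type*} [Field k] {D : Type*} [Ring D] [Algebra k D]
variable {ι : Type*} [Fintype ι] (e : Module.Basis ι k D)

/-- The product of `D` in coordinates, over an arbitrary commutative `k`-algebra `R`. -/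
noncomputable def mulv (R : Type*) [CommRing R] [Algebra k R] (u w : ι → R) : ι → R :=
  fun l => ∑ i, ∑ j, algebraMap k R (e.repr (e i * e j) l) * (u i * w j)

theorem mulv_map {R S : Type*} [CommRing R] [Algebra k R] [CommRing S] [Algebra k S]
    (f : R →ₐ[k] S) (u w : ι → R) (l : ι) :
    f (mulv e R u w l) = mulv e S (fun i => f (u i)) (fun i => f (w i)) l := by
  simp only [mulv, map_sum, map_mul, AlgHom.commutes]

theorem repr_mul (x y : D) (l : ι) :
    e.repr (x * y) l = mulv e k (fun i => e.repr x i) (fun i => e.repr y i) l := by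
  have hx : x = ∑ i, e.repr x i • e i := (e.sum_repr x).symm
  have hy : y = ∑ i, e.repr y i • e i := (e.sum_repr y).symm
  have h : x * y = ∑ i, ∑ j, (e.repr x i * e.repr y j) • (e i * e j) := by
    conv_lhs => rw [hx, hy]
    rw [Finset.sum_mul]
    refine Finset.sum_congr rfl fun i _ => ?_
    rw [Finset.mul_sum]
    refine Finset.sum_congr rfl fun j _ => ?_
    rw [smul_mul_smul_comm]
  rw [h]
  simp only [mulv, map_sum, map_smul, Finsupp.coe_finsetSum, Finset.sum_apply,
    Finsupp.smul_apply, smul_eq_mul, Algebra.algebraMap_self, RingHom.id_apply]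
  refine Finset.sum_congr rfl fun i _ => Finset.sum_congr rfl fun j _ => ?_
  ring

end mul

section form

variable {k : Type*} [Field k] {D : Type*} [Ring D] [Algebra k D]
variable {ι : Type*} [Fintype ι] (e : Module.Basis ι k D)

/-- `Φ` is a multiplicative form of degree `n > 0` on `D`. -/
structure MulForm (n : ℕ) (Φ : MvPolynomial ι k) : Prop where
  pos : 0 < n
  hom : Φ.IsHomogeneous n
  mul : ∀ x y : D, eval (fun i => e.repr (x * y) i) Φ =
    eval (fun i => e.repr x i) Φ * eval (fun i => e.repr y i) Φ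
  one : eval (fun i => e.repr 1 i) Φ = 1

variable {e} {n : ℕ} {Φ : MvPolynomial ι k}

theorem aeval_self (x : ι → k) : aeval x Φ = eval x Φ :=
  congrFun (congrArg DFunLike.coe (coe_aeval_eq_eval x)) Φ

theorem aeval_map {R S : Type*} [CommRing R] [Algebra k R] [CommRing S] [Algebra k S]
    (f : R →ₐ[k] S) (Φ : MvPolynomial ι k) (u : ι → R) :
    f (aeval u Φ) = aeval (fun i => f (u i)) Φ := by
  have := MvPolynomial.comp_aeval_apply (f := u) f Φ
  exact this

theorem MulForm.mul' (h : MulForm e n Φ) (x y : ι → k) :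
    aeval (mulv e k x y) Φ = aeval x Φ * aeval y Φ := by
  have h1 := h.mul (e.repr.symm (Finsupp.equivFunOnFinite.symm x))
    (e.repr.symm (Finsupp.equivFunOnFinite.symm y))
  have e1 : ∀ z : ι → k, (fun i => e.repr (e.repr.symm (Finsupp.equivFunOnFinite.symm z)) i) =
      z := by
    intro z
    funext i
    rw [LinearEquiv.apply_symm_apply]
    rfl
  have e2 : (fun i => e.repr (e.repr.symm (Finsupp.equivFunOnFinite.symm x) *
      e.repr.symm (Finsupp.equivFunOnFinite.symm y)) i) = mulv e k x y := by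
    funext l
    rw [repr_mul, e1, e1]
  rw [e1, e1, e2] at h1
  rw [aeval_self, aeval_self, aeval_self]
  exact h1

/-- Multiplicativity over every commutative `k`-algebra. -/
theorem MulForm.aeval_mulv [Infinite k] (h : MulForm e n Φ) {R : Type*} [CommRing R]
    [Algebra k R] (u w : ι → R) :
    aeval (mulv e R u w) Φ = aeval u Φ * aeval w Φ := by
  have key : aeval (mulv e (MvPolynomial (ι ⊕ ι) k) (fun i => X (Sum.inl i))
      (fun i => X (Sum.inr i))) Φ = aeval (fun i => (X (Sum.inl i) : MvPolynomial (ι ⊕ ι) k)) Φ *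
      aeval (fun i => (X (Sum.inr i) : MvPolynomial (ι ⊕ ι) k)) Φ := by
    apply MvPolynomial.funext
    intro z
    have h1 := h.mul' (fun i => z (Sum.inl i)) (fun i => z (Sum.inr i))
    rw [← aeval_self, ← aeval_self, map_mul, aeval_map, aeval_map, aeval_map]
    have e1 : (fun l => (aeval z) (mulv e (MvPolynomial (ι ⊕ ι) k) (fun i => X (Sum.inl i))
        (fun i => X (Sum.inr i)) l)) = mulv e k (fun i => z (Sum.inl i))
        (fun i => z (Sum.inr i)) := by
      funext l
      rw [mulv_map]
      simp only [aeval_X]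
    rw [e1, h1]
    simp only [aeval_X]
  have h2 := congrArg (aeval (Sum.elim u w) : MvPolynomial (ι ⊕ ι) k → R) key
  rw [map_mul, aeval_map, aeval_map, aeval_map] at h2
  have e1 : (fun l => (aeval (Sum.elim u w)) (mulv e (MvPolynomial (ι ⊕ ι) k)
      (fun i => X (Sum.inl i)) (fun i => X (Sum.inr i)) l)) = mulv e R u w := by
    funext l
    rw [mulv_map]
    simp only [aeval_X, Sum.elim_inl, Sum.elim_inr]
  rw [e1] at h2
  simp only [aeval_X, Sum.elim_inl, Sum.elim_inr] at h2
  exact h2

/-- Homogeneity. -/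
theorem MulForm.aeval_smul (h : MulForm e n Φ) {R : Type*} [CommRing R]
    [Algebra k R] (t : R) (u : ι → R) :
    aeval (fun i => t * u i) Φ = t ^ n * aeval u Φ := by
  rw [aeval_def, aeval_def, eval₂_eq, eval₂_eq, Finset.mul_sum]
  refine Finset.sum_congr rfl fun d hd => ?_
  have hdeg : ∑ i ∈ d.support, d i = n := by
    have := h.hom (mem_support_iff.1 hd)
    rw [Finsupp.weight_apply, Finsupp.sum] at this
    simpa using this
  have : ∏ i ∈ d.support, (t * u i) ^ d i = t ^ n * ∏ i ∈ d.support, u i ^ d i := by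
    rw [← hdeg, ← Finset.prod_pow_eq_pow_sum, ← Finset.prod_mul_distrib]
    refine Finset.prod_congr rfl fun i _ => ?_
    rw [mul_pow]
  rw [this]
  ring

/-- Coordinates of `1`. -/
noncomputable def onev (e : Module.Basis ι k D) (R : Type*) [CommRing R] [Algebra k R] : ι → R :=
  fun i => algebraMap k R (e.repr 1 i)

theorem MulForm.aeval_one (h : MulForm e n Φ) (R : Type*) [CommRing R]
    [Algebra k R] : aeval (onev e R) Φ = 1 := by
  have h1 := h.one
  rw [← aeval_self] at h1
  have h2 : Algebra.ofId k R (aeval (fun i => e.repr 1 i) Φ) =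
      aeval (fun i => Algebra.ofId k R (e.repr 1 i)) Φ := aeval_map (Algebra.ofId k R) Φ _
  rw [h1, map_one (Algebra.ofId k R)] at h2
  have h3 : (fun i => Algebra.ofId k R (e.repr 1 i)) = onev e R := by
    funext i
    rw [onev, Algebra.ofId_apply]
  rw [← h3]
  exact h2.symm

theorem MulForm.aeval_scalar (h : MulForm e n Φ) {R : Type*} [CommRing R]
    [Algebra k R] (t : R) : aeval (fun i => t * onev e R i) Φ = t ^ n := by
  rw [h.aeval_smul, h.aeval_one, mul_one]

end form

section values

variable {k : Type*} [Field k] {D : Type*} [Ring D] [Algebra k D]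
variable {ι : Type*} [Fintype ι] {e : Module.Basis ι k D} {n : ℕ} {Φ : MvPolynomial ι k}

/-- `f` is a value of the form `Φ` over `F`. -/
def IsN (Φ : MvPolynomial ι k) {F : Type*} [Field F] [Algebra k F] (f : F) : Prop :=
  ∃ u : ι → F, aeval u Φ = f

variable {F : Type*} [Field F] [Algebra k F]

theorem MulForm.isN_mul [Infinite k] (h : MulForm e n Φ) {f g : F} (hf : IsN Φ f)
    (hg : IsN Φ g) : IsN Φ (f * g) := by
  obtain ⟨u, rfl⟩ := hf
  obtain ⟨w, rfl⟩ := hg
  exact ⟨mulv e F u w, h.aeval_mulv u w⟩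

theorem MulForm.isN_pow_n (h : MulForm e n Φ) (t : F) : IsN Φ (t ^ n) :=
  ⟨_, h.aeval_scalar t⟩

theorem MulForm.isN_one (h : MulForm e n Φ) : IsN Φ (1 : F) := ⟨_, h.aeval_one F⟩

theorem MulForm.isN_pow [Infinite k] (h : MulForm e n Φ) {f : F} (hf : IsN Φ f) (m : ℕ) :
    IsN Φ (f ^ m) := by
  induction m with
  | zero => rw [pow_zero]; exact h.isN_one
  | succ m ih => rw [pow_succ]; exact h.isN_mul ih hf

theorem MulForm.isN_inv [Infinite k] (h : MulForm e n Φ) {f : F} (hf : IsN Φ f) :
    IsN Φ f⁻¹ := by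
  by_cases h0 : f = 0
  · subst h0
    rw [inv_zero]
    exact hf
  · have h1 := h.isN_mul (h.isN_pow hf (n - 1)) (h.isN_pow_n f⁻¹)
    have hn := h.pos
    have e1 : f ^ (n - 1) * f⁻¹ ^ n = f⁻¹ := by
      obtain ⟨m, rfl⟩ : ∃ m, n = m + 1 := ⟨n - 1, by omega⟩
      rw [Nat.add_sub_cancel, pow_succ, inv_pow, ← mul_assoc, mul_inv_cancel₀ (pow_ne_zero m h0),
        one_mul]
    rwa [e1] at h1

theorem MulForm.isN_div [Infinite k] (h : MulForm e n Φ) {f g : F} (hf : IsN Φ f)
    (hg : IsN Φ g) : IsN Φ (f / g) := by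
  rw [div_eq_mul_inv]
  exact h.isN_mul hf (h.isN_inv hg)

theorem IsN.map {E : Type*} [Field E] [Algebra k E] (s : F →ₐ[k] E) {f : F} (hf : IsN Φ f) :
    IsN Φ (s f) := by
  obtain ⟨u, rfl⟩ := hf
  exact ⟨fun i => s (u i), (aeval_map s Φ u).symm⟩

end values

end Pool.H24.NT
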