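import Pool.Agent.H24.NT.NForm

/-!
`k[X]`-coordinates of polynomials over a division algebra `D`, the right Euclidean algorithm
in `D[X]`, and nonvanishing of a multiplicative form on nonzero vectors of polynomials.
-/

namespace Pool.H24.NT

open Polynomial

section bezout

variable {D : Type*} [DivisionRing D]

/-- Right ideals of `D[X]` generated by two elements are principal. -/
theorem bezout (f g : D[X]) (hg : g ≠ 0) : ∃ ε α β γ δ : D[X], ε.Monic ∧ f = ε * α ∧
    g = ε * β ∧ ε = f * γ + g * δ := by
  classical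
  let S : Set D[X] := {h | h ≠ 0 ∧ ∃ γ δ, h = f * γ + g * δ}
  have hS : ∃ h, h ∈ S := ⟨g, hg, 0, 1, by simp⟩
  obtain ⟨h, ⟨hh0, γ, δ, hh⟩, hmin⟩ := (measure (natDegree (R := D))).wf.has_min S hS
  have hmin' : ∀ r, r ∈ S → h.natDegree ≤ r.natDegree := by
    intro r hr
    exact not_lt.1 (hmin r hr)
  have hlc : h.leadingCoeff ≠ 0 := leadingCoeff_ne_zero.2 hh0
  set ε : D[X] := h * C h.leadingCoeff⁻¹ with hε
  have hmon : ε.Monic := by
    rw [Monic, hε, leadingCoeff_mul, leadingCoeff_C, mul_inv_cancel₀ hlc]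
  have hdeg : ε.natDegree = h.natDegree := by
    rw [hε, natDegree_mul hh0 (C_ne_zero.2 (inv_ne_zero hlc)), natDegree_C, add_zero]
  have hεfg : ε = f * (γ * C h.leadingCoeff⁻¹) + g * (δ * C h.leadingCoeff⁻¹) := by
    rw [hε, hh]
    noncomm_ring
  have hdvd : ∀ r : D[X], (∃ a b, r = f * a + g * b) → r = ε * (r /ₘ ε) := by
    rintro r ⟨a, b, hr⟩
    have h1 := modByMonic_add_div r ε
    by_cases h0 : r %ₘ ε = 0
    · rw [h0, zero_add] at h1
      exact h1.symm
    · exfalso
      have h2 : r %ₘ ε ∈ S := by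
        refine ⟨h0, a - γ * C h.leadingCoeff⁻¹ * (r /ₘ ε), b - δ * C h.leadingCoeff⁻¹ * (r /ₘ ε),
          ?_⟩
        have h3 : r %ₘ ε = r - ε * (r /ₘ ε) := by
          rw [eq_sub_iff_add_eq]
          exact h1
        have h7 : ∀ t : D[X], r - ε * t = f * (a - γ * C h.leadingCoeff⁻¹ * t) +
            g * (b - δ * C h.leadingCoeff⁻¹ * t) := by
          intro t
          rw [hεfg, hr]
          noncomm_ring
        rw [h3]
        exact h7 _
      have h4 := hmin' _ h2
      have h5 := degree_modByMonic_lt r hmon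
      have h6 : (r %ₘ ε).natDegree < ε.natDegree := natDegree_lt_natDegree h0 h5
      omega
  refine ⟨ε, f /ₘ ε, g /ₘ ε, γ * C h.leadingCoeff⁻¹, δ * C h.leadingCoeff⁻¹, hmon,
    hdvd f ⟨1, 0, by simp⟩, hdvd g ⟨0, 1, by simp⟩, hεfg⟩

end bezout

section coord

variable {k : Type*} [Field k] {D : Type*} [Ring D] [Algebra k D]
variable {ι : Type*} [Fintype ι] (e : Module.Basis ι k D)

theorem map_comm (p : k[X]) (f : D[X]) :
    p.map (algebraMap k D) * f = f * p.map (algebraMap k D) := by
  induction p using Polynomial.induction_on' with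
  | add p q hp hq => rw [Polynomial.map_add, add_mul, mul_add, hp, hq]
  | monomial m a =>
    rw [← C_mul_X_pow_eq_monomial, Polynomial.map_mul, Polynomial.map_C, Polynomial.map_pow,
      Polynomial.map_X]
    have h1 : C (algebraMap k D a) * f = f * C (algebraMap k D a) := by
      ext j
      rw [coeff_C_mul, coeff_mul_C, Algebra.commutes]
    rw [mul_assoc, Polynomial.X_pow_mul, ← mul_assoc, h1, mul_assoc]

/-- The polynomial over `D` with given coordinates. -/
noncomputable def toP (u : ι → k[X]) : D[X] := ∑ i, (u i).map (algebraMap k D) * C (e i)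

theorem coeff_toP (u : ι → k[X]) (m : ℕ) : (toP e u).coeff m = ∑ i, (u i).coeff m • e i := by
  rw [toP, finset_sum_coeff]
  refine Finset.sum_congr rfl fun i _ => ?_
  rw [coeff_mul_C, coeff_map, Algebra.smul_def]

theorem toP_injective : Function.Injective (toP e) := by
  intro u w h
  funext i
  ext m
  have h1 := congrArg (fun f => f.coeff m) h
  simp only [coeff_toP] at h1
  have h2 := congrArg (fun x => e.repr x i) h1
  simp only [Module.Basis.repr_sum_self] at h2
  exact h2

theorem toP_surjective : Function.Surjective (toP e) := by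
  intro f
  refine ⟨fun i => ∑ m ∈ Finset.range (f.natDegree + 1), monomial m (e.repr (f.coeff m) i), ?_⟩
  ext m
  rw [coeff_toP]
  have h1 : ∀ i, (∑ j ∈ Finset.range (f.natDegree + 1),
      monomial j (e.repr (f.coeff j) i)).coeff m = e.repr (f.coeff m) i := by
    intro i
    rw [finset_sum_coeff]
    simp only [coeff_monomial]
    rw [Finset.sum_ite_eq']
    split_ifs with hm
    · rfl
    · rw [Finset.mem_range] at hm
      rw [coeff_eq_zero_of_natDegree_lt (by omega), map_zero]
      rfl
  simp only [h1]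
  exact e.sum_repr _

theorem toP_add (u w : ι → k[X]) : toP e (fun i => u i + w i) = toP e u + toP e w := by
  simp only [toP, Polynomial.map_add, add_mul, Finset.sum_add_distrib]

theorem toP_smul (q : k[X]) (u : ι → k[X]) :
    toP e (fun i => q * u i) = q.map (algebraMap k D) * toP e u := by
  simp only [toP, Polynomial.map_mul, Finset.mul_sum, mul_assoc]

theorem toP_onev : toP e (onev e k[X]) = 1 := by
  simp only [toP, onev]
  have h1 : ∀ i, (algebraMap k k[X] (e.repr 1 i)).map (algebraMap k D) * C (e i) =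
      C (e.repr 1 i • e i) := by
    intro i
    rw [Polynomial.algebraMap_eq, Polynomial.map_C, ← C_mul, Algebra.smul_def]
  simp only [h1]
  rw [← map_sum, e.sum_repr, C_1]

theorem toP_mulv (u w : ι → k[X]) : toP e (mulv e k[X] u w) = toP e u * toP e w := by
  have h1 : toP e u * toP e w = ∑ i, ∑ j, ((u i).map (algebraMap k D) *
      (w j).map (algebraMap k D)) * C (e i * e j) := by
    rw [toP, toP, Finset.sum_mul]
    refine Finset.sum_congr rfl fun i _ => ?_
    rw [Finset.mul_sum]
    refine Finset.sum_congr rfl fun j _ => ?_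
    rw [C_mul, mul_assoc, mul_assoc, ← mul_assoc (C (e i)), ← map_comm (w j) (C (e i)), mul_assoc]
  have h2 : ∀ i j, C (e i * e j) = ∑ l, C (algebraMap k D (e.repr (e i * e j) l)) * C (e l) := by
    intro i j
    conv_lhs => rw [← e.sum_repr (e i * e j)]
    rw [map_sum]
    refine Finset.sum_congr rfl fun l _ => ?_
    rw [← C_mul, Algebra.smul_def]
  rw [h1, toP]
  simp only [mulv, Polynomial.map_sum, Polynomial.map_mul, Polynomial.algebraMap_eq,
    Polynomial.map_C, Finset.sum_mul]
  rw [Finset.sum_comm]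
  refine Finset.sum_congr rfl fun i _ => ?_
  rw [Finset.sum_comm]
  refine Finset.sum_congr rfl fun j _ => ?_
  rw [h2, Finset.mul_sum]
  refine Finset.sum_congr rfl fun l _ => ?_
  have : ∀ s : D[X], C (algebraMap k D (e.repr (e i * e j) l)) * s =
      s * C (algebraMap k D (e.repr (e i * e j) l)) := by
    intro s
    have := map_comm (C (e.repr (e i * e j) l)) s
    rwa [Polynomial.map_C] at this
  rw [this]
  simp only [mul_assoc]

end coord

section nonvanish

variable {k : Type*} [Field k] {D : Type*} [DivisionRing D] [Algebra k D]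
variable {ι : Type*} [Fintype ι] {e : Module.Basis ι k D} {n : ℕ} {Φ : MvPolynomial ι k}

theorem MulForm.ne_zero (h : MulForm e n Φ) {x : ι → k} (hx : x ≠ 0) :
    MvPolynomial.aeval x Φ ≠ 0 := by
  have e1 : (fun i => e.repr (e.repr.symm (Finsupp.equivFunOnFinite.symm x)) i) = x := by
    funext i
    rw [LinearEquiv.apply_symm_apply]
    rfl
  set d := e.repr.symm (Finsupp.equivFunOnFinite.symm x) with hd
  have hd0 : d ≠ 0 := by
    intro h0
    apply hx
    rw [← e1, h0, map_zero]
    rfl
  have h1 := h.mul d d⁻¹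
  rw [mul_inv_cancel₀ hd0, h.one, e1] at h1
  intro h0
  rw [aeval_self] at h0
  rw [h0, zero_mul] at h1
  exact one_ne_zero h1

theorem MulForm.poly_ne_zero [Infinite k] (h : MulForm e n Φ) {u : ι → k[X]} (hu : u ≠ 0) :
    MvPolynomial.aeval u Φ ≠ 0 := by
  obtain ⟨i, hi⟩ := Function.ne_iff.1 hu
  have : ∃ α : k, (u i).eval α ≠ 0 := by
    by_contra hcon
    push Not at hcon
    apply hi
    apply Polynomial.funext
    intro r
    rw [hcon r, Pi.zero_apply, eval_zero]
  obtain ⟨α, hα⟩ := this
  intro h0
  have h1 := aeval_map (Polynomial.aeval α : k[X] →ₐ[k] k) Φ u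
  rw [h0, map_zero] at h1
  refine h.ne_zero (x := fun i => Polynomial.aeval α (u i)) ?_ h1.symm
  intro h2
  apply hα
  have := congrFun h2 i
  simpa [Polynomial.coe_aeval_eq_eval] using this

end nonvanish

end Pool.H24.NT
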