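import Mathlib

/-!
Orders of rational functions at the closed points of the affine line.
-/

namespace Pool.H24.NT

open Polynomial IsDedekindDomain

variable {k : Type*} [Field k]

/-- A generator of the maximal ideal of a closed point. -/
noncomputable def gen (v : HeightOneSpectrum k[X]) : k[X] :=
  Submodule.IsPrincipal.generator v.asIdeal

theorem span_gen (v : HeightOneSpectrum k[X]) : v.asIdeal = Ideal.span {gen v} :=
  (Ideal.span_singleton_generator v.asIdeal).symm

theorem gen_prime (v : HeightOneSpectrum k[X]) : Prime (gen v) := by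
  have h := v.isPrime
  exact Submodule.IsPrincipal.prime_generator_of_isPrime v.asIdeal v.ne_bot

theorem mem_iff_gen_dvd (v : HeightOneSpectrum k[X]) (x : k[X]) :
    x ∈ v.asIdeal ↔ gen v ∣ x := by
  rw [span_gen v, Ideal.mem_span_singleton]

/-- The closed point of an irreducible polynomial. -/
noncomputable def pt (q : k[X]) (hq : Irreducible q) : HeightOneSpectrum k[X] where
  asIdeal := Ideal.span {q}
  isPrime := by
    rw [Ideal.span_singleton_prime hq.ne_zero]
    exact hq.prime
  ne_bot := by
    rw [Ne, Ideal.span_singleton_eq_bot]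
    exact hq.ne_zero

variable (K : Type*) [Field K] [Algebra k[X] K] [IsFractionRing k[X] K]

/-- The order of vanishing. -/
noncomputable def ord (v : HeightOneSpectrum k[X]) (f : K) : ℤ := -WithZero.log (v.valuation K f)

variable {K}

theorem val_ne_zero (v : HeightOneSpectrum k[X]) {f : K} (hf : f ≠ 0) : v.valuation K f ≠ 0 := by
  rwa [Valuation.ne_zero_iff]

theorem ord_mul (v : HeightOneSpectrum k[X]) {f g : K} (hf : f ≠ 0) (hg : g ≠ 0) :
    ord K v (f * g) = ord K v f + ord K v g := by
  unfold ord
  rw [map_mul, WithZero.log_mul (val_ne_zero v hf) (val_ne_zero v hg)]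
  ring

theorem ord_pow (v : HeightOneSpectrum k[X]) (f : K) (m : ℕ) :
    ord K v (f ^ m) = m * ord K v f := by
  unfold ord
  rw [map_pow, WithZero.log_pow, nsmul_eq_mul]
  ring

theorem ord_inv (v : HeightOneSpectrum k[X]) (f : K) : ord K v f⁻¹ = -ord K v f := by
  unfold ord
  rw [map_inv₀, WithZero.log_inv]

theorem ord_div (v : HeightOneSpectrum k[X]) {f g : K} (hf : f ≠ 0) (hg : g ≠ 0) :
    ord K v (f / g) = ord K v f - ord K v g := by
  rw [div_eq_mul_inv, ord_mul v hf (inv_ne_zero hg), ord_inv]
  ring

theorem ord_congr (v : HeightOneSpectrum k[X]) {f g : K} (h : v.valuation K f = v.valuation K g) :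
    ord K v f = ord K v g := by
  unfold ord
  rw [h]

theorem ord_notMem (v : HeightOneSpectrum k[X]) {x : k[X]} (hx : x ∉ v.asIdeal) :
    ord K v (algebraMap k[X] K x) = 0 := by
  unfold ord
  rw [v.valuation_eq_one_iff_notMem.2 hx, WithZero.log_one, neg_zero]

theorem ord_unit (v : HeightOneSpectrum k[X]) {x : k[X]} (hx : IsUnit x) :
    ord K v (algebraMap k[X] K x) = 0 := by
  apply ord_notMem
  intro h
  have h1 := v.isPrime
  exact h1.ne_top (Ideal.eq_top_of_isUnit_mem _ h hx)

theorem ord_of_span (v : HeightOneSpectrum k[X]) {q : k[X]} (hq : q ≠ 0)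
    (hv : v.asIdeal = Ideal.span {q}) : ord K v (algebraMap k[X] K q) = 1 := by
  unfold ord
  rw [v.valuation_of_algebraMap, v.intValuation_singleton hq hv, WithZero.log_exp, neg_neg]

theorem ord_nonneg (v : HeightOneSpectrum k[X]) {x : k[X]} (hx : x ≠ 0) :
    0 ≤ ord K v (algebraMap k[X] K x) := by
  unfold ord
  have h1 := v.valuation_le_one (K := K) x
  have h2 : v.valuation K (algebraMap k[X] K x) ≠ 0 :=
    val_ne_zero v (by rw [Ne, IsFractionRing.to_map_eq_zero_iff]; exact hx)
  have h3 := (WithZero.log_le_log h2 one_ne_zero).2 h1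
  rw [WithZero.log_one] at h3
  omega

/-- An irreducible polynomial in the ideal of `v` generates it. -/
theorem span_of_mem (v : HeightOneSpectrum k[X]) {q : k[X]} (hq : Irreducible q)
    (h : q ∈ v.asIdeal) : v.asIdeal = Ideal.span {q} := by
  have h1 : gen v ∣ q := (mem_iff_gen_dvd v q).1 h
  have h2 : Associated (gen v) q := (gen_prime v).irreducible.associated_of_dvd hq h1
  rw [span_gen v, Ideal.span_singleton_eq_span_singleton]
  exact h2

end Pool.H24.NT
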